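import Pool.Agent.W192.AW.Final3

/-!
Small gaps between zeta zeros: exceptional sets with a saving of a power (helper65).

The starting library `W192/AW` bounds the measure of the set of the centres at which the Dirichlet
polynomials of length `N` have an unusual mean value, for every `N ≤ T`. There `N ^ 2` is `T H` divided by a
power of the logarithm. Here `N` is a free parameter.
-/

set_option autoImplicit false

open Complex Filter Topology Set MeasureTheory

namespace Pool.Agent.Helper65.SGP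

open SG hiding dd nn Sep cc
open Pool.Agent.W192.SI Pool.Agent.W192.AW

/-- the conclusion at one dyadic scale, for every length `N` of the Dirichlet polynomial -/
theorem one_N : ∃ C T0 : ℝ, 0 < C ∧ ∀ (T H : ℝ) (N : ℕ), T0 ≤ T → Real.log T ^ 6 ≤ H → H ≤ T →
    Real.log T / 3 ≤ Real.log N → (N : ℝ) ≤ T → ∃ S : Set ℝ,
      volume S ≤ ENNReal.ofReal (C * (T + (N : ℝ) ^ 2) * Real.log T ^ 37 / H) ∧
      ∀ W : ℝ, T ≤ W → W + H ≤ 2 * T → W + H / 2 ∉ S →
        ∃ n : ℕ, 1 ≤ n ∧ W ≤ ord n ∧ ord (n + 1) ≤ W + H ∧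
          ord (n + 1) - ord n ≤ 2 * Real.pi / (Real.log T + Real.log N) * (1 + C / Real.log T) := by
  obtain ⟨Tn, C, hC, hns⟩ := Pool.Agent.W192.AW.no_sep
  refine ⟨max (6 * C) (50000 * (4 * 2 ^ 33)), max (max Tn (Real.exp (12 * C + 1))) (Real.exp 100),
    lt_of_lt_of_le (by positivity) (le_max_left _ _), ?_⟩
  intro T H N hT hlo hhi hN3 hNT
  have hTn : Tn ≤ T := (le_max_left _ _).trans ((le_max_left _ _).trans hT)
  have hTC : Real.exp (12 * C + 1) ≤ T := (le_max_right _ _).trans ((le_max_left _ _).trans hT)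
  have hTe : Real.exp 100 ≤ T := (le_max_right _ _).trans hT
  have hTpos : 0 < T := (Real.exp_pos _).trans_le hTe
  have hL : 100 ≤ Real.log T := by
    rw [Real.le_log_iff_exp_le hTpos]
    exact hTe
  have hLC : 12 * C + 1 ≤ Real.log T := by
    rw [Real.le_log_iff_exp_le hTpos]
    exact hTC
  have hpi := Real.pi_pos
  have hA : Adm H T := ⟨hTe, hlo, hhi⟩
  have hHpos := hA.H_pos
  have hn33 : 33 ≤ Real.log N := by linarith
  have hN2 : 2 ≤ N := by
    by_contra h
    push Not at h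
    have h1 : (N : ℝ) ≤ 1 := by exact_mod_cast (by omega : N ≤ 1)
    have h2 : Real.log N ≤ 0 := Real.log_nonpos (Nat.cast_nonneg _) h1
    linarith
  have hN0 : (0 : ℝ) < N := by exact_mod_cast (by omega : 0 < N)
  set ε := 2 * C / Real.log N with hε
  set δ := dl (cN ε T N) T with hδ
  have hlogN0 : 0 < Real.log N := by linarith
  have hε0 : 0 ≤ ε := by positivity
  have hε1 : ε ≤ 1 / 2 := by
    rw [hε, div_le_iff₀ hlogN0]
    linarith
  have hCε : C < ε * Real.log N := by
    rw [hε, div_mul_cancel₀ _ hlogN0.ne']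
    linarith
  refine ⟨{t0 : ℝ | T ≤ t0 ∧ t0 ≤ 2 * T ∧
      ¬ (G1 H T N δ t0 ∧ G2 H T N δ (hh δ) t0 ∧ G2 H T N δ (-(hh δ)) t0)}, ?_, ?_⟩
  · refine (bad_total H T N hA (by omega) δ).trans ?_
    apply ENNReal.ofReal_le_ofReal
    obtain ⟨k1, k2, k3, k4, k5⟩ := Kc_facts hA N (by omega)
    set K := Kc H T N with hK
    have hKN : (N : ℝ) ≤ K := by exact_mod_cast k1
    have hK0 : (0 : ℝ) < K := by linarith
    have hlogK : 1 + Real.log K ≤ 2 * Real.log T := by
      have h1 : (K : ℝ) ≤ 2 * T := by linarith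
      have h2 := Real.log_le_log hK0 h1
      rw [Real.log_mul (by norm_num) hTpos.ne'] at h2
      have := Real.log_two_lt_d9
      linarith
    have hlogK0 : 0 ≤ Real.log K := by
      apply Real.log_nonneg
      have : (2 : ℝ) ≤ N := by exact_mod_cast hN2
      linarith
    have hx : xx H T = Real.log T ^ 4 / H := by
      unfold xx dd
      field_simp
    have hx0 := xx_pos hA
    have hK2 : T + (K : ℝ) ^ 2 ≤ 4 * (T + (N : ℝ) ^ 2) := by
      have h1 : (K : ℝ) ^ 2 ≤ (2 * N) ^ 2 := pow_le_pow_left₀ hK0.le k4 2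
      have h2 : ((2 : ℝ) * N) ^ 2 = 4 * (N : ℝ) ^ 2 := by ring
      rw [h2] at h1
      linarith
    have hpow : (1 + Real.log K) ^ 33 ≤ (2 * Real.log T) ^ 33 :=
      pow_le_pow_left₀ (by linarith) hlogK 33
    have h3 : XS H T K ≤ 4 * 2 ^ 33 * ((T + (N : ℝ) ^ 2) * Real.log T ^ 37 / H) := by
      unfold XS
      calc (T + (K : ℝ) ^ 2) * (xx H T * (1 + Real.log K) ^ 33)
          ≤ (4 * (T + (N : ℝ) ^ 2)) * (xx H T * (2 * Real.log T) ^ 33) := by gcongr
        _ = _ := by rw [hx, mul_pow]; ring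
    calc 50000 * XS H T K ≤ 50000 * (4 * 2 ^ 33 * ((T + (N : ℝ) ^ 2) * Real.log T ^ 37 / H)) := by
          linarith
      _ = (50000 * (4 * 2 ^ 33)) * ((T + (N : ℝ) ^ 2) * Real.log T ^ 37 / H) := by ring
      _ ≤ max (6 * C) (50000 * (4 * 2 ^ 33)) * ((T + (N : ℝ) ^ 2) * Real.log T ^ 37 / H) := by
          apply mul_le_mul_of_nonneg_right (le_max_right _ _)
          have : 0 < Real.log T := by linarith
          positivity
      _ = _ := by ring
  · intro W hW1 hW2 hgood
    have hW : Win H T W N := ⟨hA, hW1, hW2, hN2, hNT⟩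
    have hG : G1 H T N δ (W + H / 2) ∧ G2 H T N δ (hh δ) (W + H / 2) ∧
        G2 H T N δ (-(hh δ)) (W + H / 2) := by
      by_contra hcon
      exact hgood ⟨by linarith, by linarith, hcon⟩
    have hsep := hns ε H T W N hε0 hε1 hW hTn hCε hG.1 hG.2.1 hG.2.2
    obtain ⟨c1, c2⟩ := cN_facts hA (by omega : 1 ≤ N) hNT hε0 hε1
    obtain ⟨n, hn, h1, h2, h3⟩ := gap_of_not_sep (by linarith [hA.T_ge'])
      (hA.dl_pos (by linarith : 0 < cN ε T N)).le hsep
    refine ⟨n, hn, h1, h2, h3.trans ?_⟩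
    have hT0 : 0 < Real.log T := by linarith
    have e1 : dl (cN ε T N) T = 2 * Real.pi / (Real.log T + Real.log N) * (1 + ε) := by
      unfold dl cN
      field_simp
    rw [e1]
    apply mul_le_mul_of_nonneg_left _ (by positivity)
    have h5 : ε ≤ 6 * C / Real.log T := by
      rw [hε, div_le_div_iff₀ hlogN0 hT0]
      nlinarith
    have h6 : 6 * C / Real.log T ≤ max (6 * C) (50000 * (4 * 2 ^ 33)) / Real.log T :=
      div_le_div_of_nonneg_right (le_max_left _ _) hT0.le
    linarith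

/-- `[t, t + H]` contains two consecutive ordinates at distance at most `g` -/
def Gap (g t H : ℝ) : Prop :=
  ∃ n : ℕ, 1 ≤ n ∧ t ≤ ord n ∧ ord n ≤ ord (n + 1) ∧ ord (n + 1) ≤ t + H ∧ ord (n + 1) - ord n ≤ g

/-- the bound `(2 / (3 + η)) (2π / log T) (1 + C / log T)` for the gaps -/
noncomputable def gq (C η T : ℝ) : ℝ :=
  2 / (3 + η) * (2 * Real.pi / Real.log T) * (1 + C / Real.log T)

/-- the length `⌊T ^ ((1 + η) / 2)⌋` -/
noncomputable def Nq (η T : ℝ) : ℕ := ⌊T ^ ((1 + η) / 2)⌋₊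

theorem Nq_facts {η T : ℝ} (hη : 0 ≤ η) (hη1 : η ≤ 1) (hT : Real.exp 100 ≤ T) :
    (Nq η T : ℝ) ≤ T ∧ (Nq η T : ℝ) ^ 2 ≤ T ^ (1 + η) ∧
      (1 + η) / 2 * Real.log T - Real.log 2 ≤ Real.log (Nq η T) ∧
      Real.log T / 3 ≤ Real.log (Nq η T) := by
  have hT0 : 0 < T := (Real.exp_pos _).trans_le hT
  have hL : 100 ≤ Real.log T := by
    rw [Real.le_log_iff_exp_le hT0]
    exact hT
  have hT1 : 1 ≤ T := by
    have := Real.add_one_le_exp (100 : ℝ)
    linarith
  have hx0 : 0 < T ^ ((1 + η) / 2) := by positivity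
  have hle : (Nq η T : ℝ) ≤ T ^ ((1 + η) / 2) := Nat.floor_le hx0.le
  have h2 : 2 ≤ T ^ ((1 + η) / 2) := by
    rw [← Real.log_le_log_iff (by norm_num) hx0, Real.log_rpow hT0]
    have := Real.log_two_lt_d9
    nlinarith
  have hge : T ^ ((1 + η) / 2) / 2 ≤ (Nq η T : ℝ) := by
    have h3 := Nat.lt_floor_add_one (T ^ ((1 + η) / 2))
    have h4 : T ^ ((1 + η) / 2) < (Nq η T : ℝ) + 1 := h3
    linarith
  have hlog : (1 + η) / 2 * Real.log T - Real.log 2 ≤ Real.log (Nq η T) := by
    have h5 := Real.log_le_log (by positivity) hge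
    rwa [Real.log_div hx0.ne' (by norm_num), Real.log_rpow hT0] at h5
  refine ⟨?_, ?_, hlog, ?_⟩
  · refine hle.trans ?_
    calc T ^ ((1 + η) / 2) ≤ T ^ (1 : ℝ) := Real.rpow_le_rpow_of_exponent_le hT1 (by linarith)
      _ = T := Real.rpow_one T
  · calc (Nq η T : ℝ) ^ 2 ≤ (T ^ ((1 + η) / 2)) ^ 2 := pow_le_pow_left₀ (Nat.cast_nonneg _) hle 2
      _ = T ^ (1 + η) := by
          rw [← Real.rpow_natCast, ← Real.rpow_mul hT0.le]
          congr 1
          push_cast
          ring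
  · have := Real.log_two_lt_d9
    nlinarith

theorem gq_conv {η T C : ℝ} (hη : 0 ≤ η) (hη1 : η ≤ 1) (hT : Real.exp 100 ≤ T) (hC : 0 < C) :
    2 * Real.pi / (Real.log T + Real.log (Nq η T)) * (1 + C / Real.log T) ≤
      gq (2 * C + 2) η T := by
  obtain ⟨-, -, h1, -⟩ := Nq_facts hη hη1 hT
  have hT0 : 0 < T := (Real.exp_pos _).trans_le hT
  have hL : 100 ≤ Real.log T := by
    rw [Real.le_log_iff_exp_le hT0]
    exact hT
  have hpi := Real.pi_pos
  have hl2 := Real.log_two_lt_d9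
  have hl20 : 0 < Real.log 2 := Real.log_pos (by norm_num)
  set L := Real.log T with hLdef
  have hL0 : 0 < L := by linarith
  have hden0 : 0 < (3 + η) / 2 * L - Real.log 2 := by nlinarith
  have hden : (3 + η) / 2 * L - Real.log 2 ≤ L + Real.log (Nq η T) := by linarith
  have h2 : 2 * Real.pi / (L + Real.log (Nq η T)) ≤ 2 * Real.pi / ((3 + η) / 2 * L - Real.log 2) :=
    div_le_div_of_nonneg_left (by positivity) hden0 hden
  have h3 : 2 * Real.pi / ((3 + η) / 2 * L - Real.log 2) ≤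
      2 / (3 + η) * (2 * Real.pi / L) * (1 + 1 / L) := by
    rw [div_le_iff₀ hden0]
    have e : 2 / (3 + η) * (2 * Real.pi / L) * (1 + 1 / L) * ((3 + η) / 2 * L - Real.log 2) =
        2 * Real.pi * ((1 + 1 / L) * (1 - 2 * Real.log 2 / ((3 + η) * L))) := by
      field_simp
    rw [e]
    have h4 : 1 ≤ (1 + 1 / L) * (1 - 2 * Real.log 2 / ((3 + η) * L)) := by
      have h5 : 2 * Real.log 2 / ((3 + η) * L) ≤ (1 / 2) * (1 / L) := by
        rw [div_mul_div_comm, div_le_div_iff₀ (by positivity) (by positivity)]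
        nlinarith
      have h6 : 1 / L ≤ 1 / 100 := div_le_div_of_nonneg_left (by norm_num) (by norm_num) hL
      have h7 : 0 < 1 / L := by positivity
      nlinarith
    nlinarith
  have h4 : 0 ≤ 1 + C / L := by positivity
  refine (mul_le_mul_of_nonneg_right (h2.trans h3) h4).trans ?_
  unfold gq
  rw [mul_assoc]
  apply mul_le_mul_of_nonneg_left _ (by positivity)
  have h5 : 1 / L ≤ 1 := by
    rw [div_le_one hL0]
    linarith
  have h6 : 0 < C / L := by positivity
  have e : (1 + 1 / L) * (1 + C / L) = 1 + (1 / L + C / L + 1 / L * (C / L)) := by ring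
  have e2 : (2 * C + 2) / L = 2 * (C / L) + 2 * (1 / L) := by ring
  rw [e, ← hLdef, e2]
  have h7 : 0 < 1 / L := by positivity
  nlinarith

theorem gq_anti {C η T T' : ℝ} (hC : 0 ≤ C) (hη : 0 ≤ η) (hT : Real.exp 100 ≤ T) (h : T ≤ T') :
    gq C η T' ≤ gq C η T := by
  have hT0 : 0 < T := (Real.exp_pos _).trans_le hT
  have hL : 100 ≤ Real.log T := by
    rw [Real.le_log_iff_exp_le hT0]
    exact hT
  have hL' : Real.log T ≤ Real.log T' := Real.log_le_log hT0 h
  have hpi := Real.pi_pos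
  have hL0 : 0 < Real.log T := by linarith
  have hL0' : 0 < Real.log T' := by linarith
  have h0 : 0 ≤ 1 + C / Real.log T' := by positivity
  unfold gq
  gcongr

/-- **(1) the measure of the set of the exceptional `t`, with a saving of a power** -/
theorem measure_all : ∃ C T0 : ℝ, 0 < C ∧ ∀ η T H : ℝ, 0 ≤ η → η ≤ 1 → T0 ≤ T → 0 < H → H ≤ T →
    volume {t : ℝ | T ≤ t ∧ t ≤ 2 * T ∧ ¬ Gap (gq C η T) t H} ≤
      ENNReal.ofReal (C * T ^ (1 + η) * Real.log T ^ 37 / H) := by
  obtain ⟨C0, T1, hC0, h1⟩ := one_N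
  set C : ℝ := max (2 * C0 + 2) (2 ^ 42 * C0 + 1) with hCdef
  have hCa : 2 * C0 + 2 ≤ C := le_max_left _ _
  have hCb : 2 ^ 42 * C0 + 1 ≤ C := le_max_right _ _
  have hC : 0 < C := by linarith
  refine ⟨C, max T1 (Real.exp 100), hC, ?_⟩
  intro η T H hη hη1 hT hH hHT
  have hTT1 : T1 ≤ T := (le_max_left _ _).trans hT
  have hTe : Real.exp 100 ≤ T := (le_max_right _ _).trans hT
  have hTpos : 0 < T := (Real.exp_pos _).trans_le hTe
  have hT1 : 1 ≤ T := by
    have := Real.add_one_le_exp (100 : ℝ)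
    linarith
  have hL : 100 ≤ Real.log T := by
    rw [Real.le_log_iff_exp_le hTpos]; exact hTe
  have hLpos : 0 < Real.log T := by linarith
  have hTη : T ≤ T ^ (1 + η) := by
    calc T = T ^ (1 : ℝ) := (Real.rpow_one T).symm
      _ ≤ T ^ (1 + η) := Real.rpow_le_rpow_of_exponent_le hT1 (by linarith)
  rcases lt_or_ge H (Real.log T ^ 8) with hsm | hbig
  · -- trivial range
    refine (measure_mono (show _ ⊆ Icc T (2 * T) from fun t ht => ⟨ht.1, ht.2.1⟩)).trans ?_
    rw [Real.volume_Icc]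
    apply ENNReal.ofReal_le_ofReal
    rw [le_div_iff₀ hH]
    have h2 : (1 : ℝ) ≤ Real.log T ^ 29 := one_le_pow₀ (by linarith)
    have h3 : Real.log T ^ 37 = Real.log T ^ 8 * Real.log T ^ 29 := by ring
    have hC1 : 1 ≤ C := by linarith [show (0 : ℝ) < 2 ^ 42 * C0 by positivity]
    have h4 : H ≤ Real.log T ^ 37 := by
      rw [h3]
      have : 0 < Real.log T ^ 8 := by positivity
      nlinarith
    have h5 : T ≤ C * T ^ (1 + η) := by nlinarith
    calc (2 * T - T) * H = T * H := by ring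
      _ ≤ (C * T ^ (1 + η)) * Real.log T ^ 37 := mul_le_mul h5 h4 hH.le (by positivity)
      _ = _ := by ring
  · have hlog2T : Real.log (2 * T) ≤ 2 * Real.log T := by
      rw [Real.log_mul (by norm_num) hTpos.ne']
      have := Real.log_two_lt_d9
      linarith
    have hlogTT : Real.log T ≤ Real.log (2 * T) := Real.log_le_log hTpos (by linarith)
    have hcond2 : Real.log (2 * T) ^ 6 ≤ H / 2 := by
      have h2 : Real.log (2 * T) ^ 6 ≤ (2 * Real.log T) ^ 6 := pow_le_pow_left₀ (by linarith) hlog2T _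
      have h3 : 2 * (2 * Real.log T) ^ 6 ≤ Real.log T ^ 8 := by
        have e : Real.log T ^ 8 = Real.log T ^ 2 * Real.log T ^ 6 := by ring
        have e2 : 2 * (2 * Real.log T) ^ 6 = 128 * Real.log T ^ 6 := by ring
        rw [e, e2]
        have h4 : 128 ≤ Real.log T ^ 2 := by nlinarith
        exact mul_le_mul_of_nonneg_right h4 (by positivity)
      linarith
    have hcond1 : Real.log T ^ 6 ≤ H / 2 := (pow_le_pow_left₀ hLpos.le hlogTT _).trans hcond2
    have hT2e : Real.exp 100 ≤ 2 * T := by linarith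
    obtain ⟨a1, a2, a3, a4⟩ := Nq_facts hη hη1 hTe
    obtain ⟨b1, b2, b3, b4⟩ := Nq_facts hη hη1 hT2e
    obtain ⟨S1, hS1, hS1'⟩ := h1 T (H / 2) (Nq η T) hTT1 hcond1 (by linarith) a4 a1
    obtain ⟨S2, hS2, hS2'⟩ := h1 (2 * T) (H / 2) (Nq η (2 * T)) (by linarith) hcond2 (by linarith) b4 b1
    have hg1 : 2 * Real.pi / (Real.log T + Real.log (Nq η T)) * (1 + C0 / Real.log T) ≤ gq C η T := by
      refine (gq_conv hη hη1 hTe hC0).trans ?_
      unfold gq
      gcongr
    have hg2 : 2 * Real.pi / (Real.log (2 * T) + Real.log (Nq η (2 * T))) *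
        (1 + C0 / Real.log (2 * T)) ≤ gq C η T := by
      refine (gq_conv hη hη1 hT2e hC0).trans ((gq_anti (by positivity) hη hTe (by linarith)).trans ?_)
      unfold gq
      gcongr
    have hsub : {t : ℝ | T ≤ t ∧ t ≤ 2 * T ∧ ¬ Gap (gq C η T) t H} ⊆
        (fun t => t + H / 4) ⁻¹' S1 ∪ (fun t => t + 3 * H / 4) ⁻¹' S2 := by
      rintro t ⟨ht1, ht2, ht3⟩
      by_contra hcon
      rw [Set.mem_union, not_or, Set.mem_preimage, Set.mem_preimage] at hcon
      apply ht3
      rcases le_or_gt (t + H / 2) (2 * T) with hle | hgt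
      · obtain ⟨n, hn, c1, c2, c3⟩ := hS1' t ht1 hle (by
          have : t + H / 2 / 2 = t + H / 4 := by ring
          rw [this]
          exact hcon.1)
        exact ⟨n, hn, c1, ord_mono hn (by omega), by linarith, c3.trans hg1⟩
      · obtain ⟨n, hn, c1, c2, c3⟩ := hS2' (t + H / 2) hgt.le (by linarith) (by
          have : t + H / 2 + H / 2 / 2 = t + 3 * H / 4 := by ring
          rw [this]
          exact hcon.2)
        exact ⟨n, hn, by linarith, ord_mono hn (by omega), by linarith, c3.trans hg2⟩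
    refine (measure_mono hsub).trans ((measure_union_le _ _).trans ?_)
    rw [measure_preimage_add_right, measure_preimage_add_right]
    refine (add_le_add hS1 hS2).trans ?_
    have hlog2 : 0 < Real.log (2 * T) := by linarith
    rw [← ENNReal.ofReal_add (by positivity) (by positivity)]
    apply ENNReal.ofReal_le_ofReal
    have e1 : C0 * (T + (Nq η T : ℝ) ^ 2) * Real.log T ^ 37 / (H / 2) ≤
        4 * C0 * (T ^ (1 + η) * Real.log T ^ 37 / H) := by
      have : T + (Nq η T : ℝ) ^ 2 ≤ 2 * T ^ (1 + η) := by linarith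
      calc C0 * (T + (Nq η T : ℝ) ^ 2) * Real.log T ^ 37 / (H / 2)
          ≤ C0 * (2 * T ^ (1 + η)) * Real.log T ^ 37 / (H / 2) := by gcongr
        _ = _ := by field_simp; ring
    have e2 : C0 * (2 * T + (Nq η (2 * T) : ℝ) ^ 2) * Real.log (2 * T) ^ 37 / (H / 2) ≤
        2 ^ 41 * C0 * (T ^ (1 + η) * Real.log T ^ 37 / H) := by
      have h2T : (2 * T) ^ (1 + η) ≤ 4 * T ^ (1 + η) := by
        rw [Real.mul_rpow (by norm_num) hTpos.le]
        apply mul_le_mul_of_nonneg_right _ (by positivity)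
        calc (2 : ℝ) ^ (1 + η) ≤ 2 ^ (2 : ℝ) :=
              Real.rpow_le_rpow_of_exponent_le (by norm_num) (by linarith)
          _ = 4 := by norm_num
      have h8 : 2 * T + (Nq η (2 * T) : ℝ) ^ 2 ≤ 6 * T ^ (1 + η) := by linarith
      have h9 : Real.log (2 * T) ^ 37 ≤ 2 ^ 37 * Real.log T ^ 37 := by
        rw [← mul_pow]
        exact pow_le_pow_left₀ hlog2.le hlog2T _
      calc C0 * (2 * T + (Nq η (2 * T) : ℝ) ^ 2) * Real.log (2 * T) ^ 37 / (H / 2)
          ≤ C0 * (6 * T ^ (1 + η)) * (2 ^ 37 * Real.log T ^ 37) / (H / 2) := by gcongr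
        _ = (12 * 2 ^ 37) * C0 * (T ^ (1 + η) * Real.log T ^ 37 / H) := by field_simp; ring
        _ ≤ 2 ^ 41 * C0 * (T ^ (1 + η) * Real.log T ^ 37 / H) := by
            gcongr
            norm_num
    have h10 : 0 < T ^ (1 + η) * Real.log T ^ 37 / H := by positivity
    calc _ ≤ 4 * C0 * (T ^ (1 + η) * Real.log T ^ 37 / H) +
          2 ^ 41 * C0 * (T ^ (1 + η) * Real.log T ^ 37 / H) := add_le_add e1 e2
      _ = (4 * C0 + 2 ^ 41 * C0) * (T ^ (1 + η) * Real.log T ^ 37 / H) := by ring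
      _ ≤ C * (T ^ (1 + η) * Real.log T ^ 37 / H) := by
          apply mul_le_mul_of_nonneg_right _ h10.le
          linarith
      _ = _ := by ring

end Pool.Agent.Helper65.SGP
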