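import Mathlib

/-!
A set `B` of real numbers whose measure in `[T, 2T]` is at most `T ^ (σ + ε)`: the `t` with
`[t, t + κ t ^ θ) ⊆ B` are near the members of a set of cells, of which there are at most
`X ^ (σ - θ + ε)` up to height `X` (helper65).
-/

set_option autoImplicit false
set_option maxHeartbeats 4000000

open Filter Topology Set MeasureTheory

namespace Pool.Agent.Helper65.SGP

/-- the cell number `k` of length `L` -/
def Cell (L : ℝ) (k : ℕ) : Set ℝ := Ico (k * L) ((k + 1 : ℝ) * L)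

lemma cell_disj {L : ℝ} (hL : 0 < L) : Pairwise (fun i j => Disjoint (Cell L i) (Cell L j)) := by
  intro i j hij
  rw [Set.disjoint_left]
  rintro x ⟨h1, h2⟩ ⟨h3, h4⟩
  apply hij
  have e1 : (i : ℝ) < j + 1 := by
    by_contra hcon
    push Not at hcon
    nlinarith
  have e2 : (j : ℝ) < i + 1 := by
    by_contra hcon
    push Not at hcon
    nlinarith
  have e3 : i < j + 1 := by exact_mod_cast e1
  have e4 : j < i + 1 := by exact_mod_cast e2
  omega

lemma sum_cells (V : Set ℝ) {L : ℝ} (hL : 0 < L) (F : Finset ℕ) :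
    ∑ k ∈ F, volume (V ∩ Cell L k) ≤ volume V := by
  calc ∑ k ∈ F, volume (V ∩ Cell L k) = ∑ k ∈ F, (volume.restrict (Cell L k)) V := by
        refine Finset.sum_congr rfl fun k _ => ?_
        exact (Measure.restrict_apply' (show MeasurableSet (Cell L k) from measurableSet_Ico)).symm
    _ ≤ ∑' k, (volume.restrict (Cell L k)) V := ENNReal.sum_le_tsum _
    _ ≤ (Measure.sum fun k => volume.restrict (Cell L k)) V := Measure.le_sum_apply _ _
    _ = (volume.restrict (⋃ k, Cell L k)) V := by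
        rw [Measure.restrict_iUnion (cell_disj hL) (fun _ => measurableSet_Ico)]
    _ ≤ volume V := Measure.restrict_le_self _

/-- the number of the cells of which at least half is in `V` -/
lemma card_cells {V : Set ℝ} {L m : ℝ} (hL : 0 < L) (hm : 0 ≤ m) (hV : volume V ≤ ENNReal.ofReal m)
    (F : Finset ℕ) (hF : ∀ k ∈ F, ENNReal.ofReal (L / 2) ≤ volume (V ∩ Cell L k)) :
    (F.card : ℝ) ≤ 2 * m / L := by
  have h1 : (F.card : ENNReal) * ENNReal.ofReal (L / 2) ≤ ENNReal.ofReal m := by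
    calc (F.card : ENNReal) * ENNReal.ofReal (L / 2) = ∑ _k ∈ F, ENNReal.ofReal (L / 2) := by
          rw [Finset.sum_const, nsmul_eq_mul]
      _ ≤ ∑ k ∈ F, volume (V ∩ Cell L k) := Finset.sum_le_sum hF
      _ ≤ volume V := sum_cells V hL F
      _ ≤ _ := hV
  rw [← ENNReal.ofReal_natCast, ← ENNReal.ofReal_mul (Nat.cast_nonneg _),
    ENNReal.ofReal_le_ofReal_iff hm] at h1
  rw [le_div_iff₀ hL]
  linarith

/-- the index of the cell of a point -/
lemma mem_cell {L t : ℝ} (hL : 0 < L) (ht : 0 ≤ t) : t ∈ Cell L ⌊t / L⌋₊ := by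
  constructor
  · have := Nat.floor_le (show 0 ≤ t / L by positivity)
    rwa [le_div_iff₀ hL] at this
  · have := Nat.lt_floor_add_one (t / L)
    rwa [div_lt_iff₀ hL] at this

/-- one of two neighbouring cells is half full -/
lemma half_full {B : Set ℝ} {L t : ℝ} (hL : 0 < L) (ht : 0 ≤ t) (hB : Ico t (t + L) ⊆ B) :
    ∃ k : ℕ, ENNReal.ofReal (L / 2) ≤ volume (B ∩ Cell L k) ∧ (k : ℝ) * L ≤ t + L ∧ t < (k + 1 : ℝ) * L := by
  set k := ⌊t / L⌋₊ with hk
  obtain ⟨h1, h2⟩ := mem_cell hL ht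
  rw [← hk] at h1 h2
  rcases le_total (t + L / 2) ((k + 1 : ℝ) * L) with h | h
  · refine ⟨k, ?_, by linarith, h2⟩
    have hsub : Ico t (t + L / 2) ⊆ B ∩ Cell L k := by
      rintro x ⟨hx1, hx2⟩
      exact ⟨hB ⟨hx1, by linarith⟩, by linarith, by linarith⟩
    refine le_trans ?_ (measure_mono hsub)
    rw [Real.volume_Ico]
    apply ENNReal.ofReal_le_ofReal
    linarith
  · refine ⟨k + 1, ?_, by push_cast; linarith, by push_cast; linarith⟩
    have hsub : Ico ((k + 1 : ℝ) * L) ((k + 1 : ℝ) * L + L / 2) ⊆ B ∩ Cell L (k + 1) := by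
      rintro x ⟨hx1, hx2⟩
      refine ⟨hB ⟨by linarith, by linarith⟩, ?_, ?_⟩
      · push_cast; linarith
      · push_cast; linarith
    refine le_trans ?_ (measure_mono hsub)
    rw [Real.volume_Ico]
    apply ENNReal.ofReal_le_ofReal
    linarith

/-- `∑_{j ≤ J} q^j ≤ q/(q-1) q^J` -/
lemma geom_le {q : ℝ} (hq : 1 < q) (J : ℕ) : ∑ j ∈ Finset.range (J + 1), q ^ j ≤ q / (q - 1) * q ^ J := by
  rw [geom_sum_eq hq.ne']
  have h1 : 0 < q - 1 := by linarith
  rw [div_le_iff₀ h1, pow_succ]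
  have h2 : q / (q - 1) * q ^ J * (q - 1) = q ^ J * q := by field_simp
  rw [h2]
  linarith

/-- **Cells.** -/
theorem cells {B : Set ℝ} {σ θ κ : ℝ} (hθ : 0 < θ) (hθ1 : θ < 1) (hκ : 0 < κ)
    (hB : ∀ ε : ℝ, 0 < ε → ∃ K T₀ : ℝ, ∀ T : ℝ, T₀ ≤ T →
      volume (B ∩ Icc T (2 * T)) ≤ ENNReal.ofReal (K * T ^ (σ + ε))) :
    ∃ (S : Set (ℕ × ℕ)) (h : ℕ × ℕ → ℝ),
      (∀ ε : ℝ, 0 < ε → ∃ C : ℝ, ∀ X : ℝ, 1 ≤ X →
        {t | t ∈ S ∧ h t ≤ X}.Finite ∧
          ({t | t ∈ S ∧ h t ≤ X}.ncard : ℝ) ≤ C * X ^ (max 0 (σ - θ) + ε)) ∧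
      ∃ t₀ D : ℝ, 0 < D ∧ ∀ t : ℝ, t₀ ≤ t → Ico t (t + κ * t ^ θ) ⊆ B → ∃ p ∈ S, |h p - t| ≤ D * t ^ θ := by
  classical
  -- the length of the cells
  set L : ℕ → ℝ := fun j => κ * ((2 : ℝ) ^ j) ^ θ with hL
  have hLpos : ∀ j, 0 < L j := fun j => by
    simp only [hL]; positivity
  -- `L j ≤ 2 ^ j / 2` for large `j`
  obtain ⟨j₀, hj₀⟩ : ∃ j₀ : ℕ, ∀ j : ℕ, j₀ ≤ j → L j ≤ 2 ^ j / 2 := by
    have h1 : Tendsto (fun j : ℕ => ((2 : ℝ) ^ j) ^ (1 - θ)) atTop atTop :=
      (tendsto_rpow_atTop (by linarith)).comp (tendsto_pow_atTop_atTop_of_one_lt (by norm_num))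
    obtain ⟨j₀, hj₀⟩ := eventually_atTop.1 (h1.eventually (eventually_ge_atTop (2 * κ)))
    refine ⟨j₀, fun j hj => ?_⟩
    have h2 := hj₀ j hj
    have h3 : (0 : ℝ) < 2 ^ j := by positivity
    have h4 : ((2 : ℝ) ^ j) ^ θ * ((2 : ℝ) ^ j) ^ (1 - θ) = 2 ^ j := by
      rw [← Real.rpow_add h3, add_sub_cancel, Real.rpow_one]
    have h5 : 0 < ((2 : ℝ) ^ j) ^ θ := by positivity
    simp only [hL]
    nlinarith
  set S : Set (ℕ × ℕ) := {p | j₀ ≤ p.1 ∧ (2 : ℝ) ^ p.1 ≤ (p.2 + 1 : ℝ) * L p.1 ∧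
    (p.2 : ℝ) * L p.1 ≤ 3 * 2 ^ p.1 ∧ ENNReal.ofReal (L p.1 / 2) ≤ volume (B ∩ Cell (L p.1) p.2)} with hS
  set h : ℕ × ℕ → ℝ := fun p => (p.2 : ℝ) * L p.1 with hh
  refine ⟨S, h, ?_, 2 ^ j₀, 2 * κ, by positivity, ?_⟩
  · -- the number of the cells
    intro ε hε
    obtain ⟨K0, T₀, hT₀⟩ := hB ε hε
    set K : ℝ := |K0| with hK
    have hK0 : 0 ≤ K := abs_nonneg _
    set ρ : ℝ := max 0 (σ - θ) with hρ
    have hρ0 : 0 ≤ ρ := le_max_left _ _
    have hρ1 : σ - θ ≤ ρ := le_max_right _ _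
    -- a fixed level
    obtain ⟨j₁, hj₁⟩ : ∃ j₁ : ℕ, ∀ j : ℕ, j₁ ≤ j → T₀ ≤ 2 ^ j / 2 := by
      have h1 : Tendsto (fun j : ℕ => (2 : ℝ) ^ j / 2) atTop atTop :=
        (tendsto_pow_atTop_atTop_of_one_lt (by norm_num)).atTop_div_const (by norm_num)
      exact eventually_atTop.1 (h1.eventually (eventually_ge_atTop T₀))
    set Fl : ℕ → Finset ℕ := fun j => (Finset.range (⌊3 * 2 ^ j / L j⌋₊ + 1)).filter fun k =>
      (j, k) ∈ S with hFl
    have hmemF : ∀ p : ℕ × ℕ, p ∈ S → p.2 ∈ Fl p.1 := by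
      rintro ⟨j, k⟩ hp
      simp only [hFl, Finset.mem_filter, Finset.mem_range]
      refine ⟨?_, hp⟩
      have h1 : (k : ℝ) ≤ 3 * 2 ^ j / L j := by
        rw [le_div_iff₀ (hLpos j)]
        exact hp.2.2.1
      exact Nat.lt_succ_of_le (Nat.le_floor h1)
    -- the constant
    set W : ℝ := 6 * K * (4 : ℝ) ^ (|σ + ε|) / κ with hW
    have hW0 : 0 ≤ W := by positivity
    have hlevel : ∀ j : ℕ, j₁ ≤ j → ((Fl j).card : ℝ) ≤ W * ((2 : ℝ) ^ (ρ + ε)) ^ j := by
      intro j hj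
      rcases (Fl j).eq_empty_or_nonempty with hemp | hne
      · rw [hemp, Finset.card_empty, Nat.cast_zero]
        positivity
      have hjj : j₀ ≤ j := by
        obtain ⟨k, hk⟩ := hne
        exact (Finset.mem_filter.1 hk).2.1
      have hT := hj₁ j hj
      have h2j : (0 : ℝ) < 2 ^ j := by positivity
      set V : Set ℝ := B ∩ Icc ((2 : ℝ) ^ j / 2) (4 * 2 ^ j) with hV
      have hVm : volume V ≤ ENNReal.ofReal (3 * (K * (4 : ℝ) ^ (|σ + ε|) * ((2 : ℝ) ^ j) ^ (σ + ε))) := by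
        have hsub : V ⊆ (B ∩ Icc ((2 : ℝ) ^ j / 2) (2 * ((2 : ℝ) ^ j / 2))) ∪
            ((B ∩ Icc ((2 : ℝ) ^ j) (2 * (2 : ℝ) ^ j)) ∪ (B ∩ Icc (2 * (2 : ℝ) ^ j) (2 * (2 * (2 : ℝ) ^ j)))) := by
          rintro x ⟨hx, hx1, hx2⟩
          rcases le_total x (2 ^ j) with h1 | h1
          · exact Or.inl ⟨hx, hx1, by linarith⟩
          · rcases le_total x (2 * 2 ^ j) with h2 | h2
            · exact Or.inr (Or.inl ⟨hx, h1, h2⟩)
            · exact Or.inr (Or.inr ⟨hx, h2, by linarith⟩)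
        have hone : ∀ s : ℝ, (2 : ℝ) ^ j / 2 ≤ s → s ≤ 2 * 2 ^ j → volume (B ∩ Icc s (2 * s)) ≤
            ENNReal.ofReal (K * (4 : ℝ) ^ (|σ + ε|) * ((2 : ℝ) ^ j) ^ (σ + ε)) := by
          intro s hs1 hs2
          refine (hT₀ s (hT.trans hs1)).trans (ENNReal.ofReal_le_ofReal ?_)
          have hs0 : 0 < s := lt_of_lt_of_le (by positivity) hs1
          have h1 : s ^ (σ + ε) ≤ (4 : ℝ) ^ (|σ + ε|) * ((2 : ℝ) ^ j) ^ (σ + ε) := by
            rcases le_total 0 (σ + ε) with h0 | h0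
            · rw [abs_of_nonneg h0, ← Real.mul_rpow (by norm_num) h2j.le]
              exact Real.rpow_le_rpow hs0.le (by linarith) h0
            · rw [abs_of_nonpos h0]
              calc s ^ (σ + ε) ≤ ((2 : ℝ) ^ j / 4) ^ (σ + ε) :=
                    Real.rpow_le_rpow_of_nonpos (by positivity) (by linarith) h0
                _ = 4 ^ (-(σ + ε)) * ((2 : ℝ) ^ j) ^ (σ + ε) := by
                    rw [Real.div_rpow h2j.le (by norm_num), Real.rpow_neg (by norm_num)]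
                    field_simp
          calc K0 * s ^ (σ + ε) ≤ K * s ^ (σ + ε) :=
                mul_le_mul_of_nonneg_right (le_abs_self _) (by positivity)
            _ ≤ K * ((4 : ℝ) ^ (|σ + ε|) * ((2 : ℝ) ^ j) ^ (σ + ε)) := mul_le_mul_of_nonneg_left h1 hK0
            _ = _ := by ring
        refine (measure_mono hsub).trans ((measure_union_le _ _).trans ?_)
        refine (add_le_add_right (measure_union_le _ _) _).trans ?_
        refine (add_le_add (hone _ le_rfl (by linarith)) (add_le_add (hone _ (by linarith) (by linarith))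
          (hone _ (by linarith) le_rfl))).trans ?_
        rw [← ENNReal.ofReal_add (by positivity) (by positivity), ← ENNReal.ofReal_add (by positivity) (by positivity)]
        apply ENNReal.ofReal_le_ofReal
        linarith
      have hcard := card_cells (hLpos j) (by positivity) hVm (Fl j) (by
        intro k hk
        obtain ⟨_, p2, p3, p4⟩ := (Finset.mem_filter.1 hk).2
        simp only at p2 p3 p4
        refine p4.trans (measure_mono ?_)
        rintro x ⟨hx, hx1, hx2⟩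
        have h1 := hj₀ j hjj
        refine ⟨⟨hx, ?_, ?_⟩, hx1, hx2⟩
        · have h2 : (k + 1 : ℝ) * L j = k * L j + L j := by ring
          linarith
        · have h2 : (k + 1 : ℝ) * L j = k * L j + L j := by ring
          linarith)
      refine hcard.trans ?_
      have h2 : ((2 : ℝ) ^ j) ^ (σ + ε) / ((2 : ℝ) ^ j) ^ θ = ((2 : ℝ) ^ j) ^ (σ + ε - θ) := by
        rw [← Real.rpow_sub h2j]
      have h3 : ((2 : ℝ) ^ j) ^ (σ + ε - θ) ≤ ((2 : ℝ) ^ (ρ + ε)) ^ j := by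
        have h4 : ((2 : ℝ) ^ (ρ + ε)) ^ j = ((2 : ℝ) ^ j) ^ (ρ + ε) := by
          rw [← Real.rpow_natCast, ← Real.rpow_natCast, ← Real.rpow_mul (by norm_num),
            ← Real.rpow_mul (by norm_num), mul_comm]
        rw [h4]
        apply Real.rpow_le_rpow_of_exponent_le (one_le_pow₀ (by norm_num))
        linarith
      have h5 : 2 * (3 * (K * (4 : ℝ) ^ (|σ + ε|) * ((2 : ℝ) ^ j) ^ (σ + ε))) / L j =
          W * (((2 : ℝ) ^ j) ^ (σ + ε) / ((2 : ℝ) ^ j) ^ θ) := by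
        simp only [hL, hW]
        have : ((2 : ℝ) ^ j) ^ θ ≠ 0 := by positivity
        field_simp
        ring
      rw [h5, h2]
      exact mul_le_mul_of_nonneg_left h3 hW0
    -- all levels
    set M : ℝ := ∑ j ∈ Finset.range j₁, ((Fl j).card : ℝ) with hM
    have hM0 : 0 ≤ M := Finset.sum_nonneg fun _ _ => Nat.cast_nonneg _
    set q : ℝ := (2 : ℝ) ^ (ρ + ε) with hq
    have hq1 : 1 < q := Real.one_lt_rpow (by norm_num) (by linarith)
    refine ⟨M + W * (q / (q - 1)) * (2 : ℝ) ^ (ρ + ε), fun X hX => ?_⟩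
    have hX0 : 0 < X := by linarith
    obtain ⟨J, hJ1, hJ2⟩ := exists_nat_pow_near (x := 2 * X) (y := (2 : ℝ)) (by linarith) (by norm_num)
    set U : Finset (ℕ × ℕ) := (Finset.range (J + 1)).biUnion fun j => (Fl j).image fun k => (j, k) with hU
    have hsub : {t | t ∈ S ∧ h t ≤ X} ⊆ (U : Set (ℕ × ℕ)) := by
      rintro ⟨j, k⟩ ⟨hp, hpX⟩
      simp only [hU, Finset.coe_biUnion, Set.mem_iUnion, Finset.coe_image, Set.mem_image]
      refine ⟨j, ?_, k, hmemF _ hp, rfl⟩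
      simp only [Finset.coe_range, Set.mem_Iio]
      obtain ⟨p1, p2, p3, p4⟩ := hp
      simp only at p1 p2
      have h1 := hj₀ j p1
      have h2 : (k + 1 : ℝ) * L j = k * L j + L j := by ring
      have h3 : (k : ℝ) * L j ≤ X := hpX
      have h4 : (2 : ℝ) ^ j ≤ 2 * X := by linarith
      by_contra hcon
      push Not at hcon
      have h5 : (2 : ℝ) ^ (J + 1) ≤ 2 ^ j := pow_le_pow_right₀ (by norm_num) (by omega)
      linarith
    have hfin : {t | t ∈ S ∧ h t ≤ X}.Finite := (Finset.finite_toSet U).subset hsub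
    refine ⟨hfin, ?_⟩
    have h1 := Set.ncard_le_ncard hsub (Finset.finite_toSet U)
    rw [Set.ncard_coe_finset] at h1
    have h2 : (U.card : ℝ) ≤ ∑ j ∈ Finset.range (J + 1), ((Fl j).card : ℝ) := by
      have h3 : U.card ≤ ∑ j ∈ Finset.range (J + 1), ((Fl j).image fun k => (j, k)).card :=
        Finset.card_biUnion_le
      have h4 : ∑ j ∈ Finset.range (J + 1), ((Fl j).image fun k => (j, k)).card ≤
          ∑ j ∈ Finset.range (J + 1), (Fl j).card := Finset.sum_le_sum fun j _ => Finset.card_image_le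
      exact_mod_cast h3.trans h4
    have h3 : ∀ j ∈ Finset.range (J + 1), ((Fl j).card : ℝ) ≤
        (if j < j₁ then ((Fl j).card : ℝ) else 0) + W * q ^ j := by
      intro j _
      have : 0 ≤ W * q ^ j := by positivity
      split_ifs with hj
      · linarith
      · push Not at hj
        have := hlevel j hj
        linarith
    have h4 : ∑ j ∈ Finset.range (J + 1), (if j < j₁ then ((Fl j).card : ℝ) else 0) ≤ M := by
      rw [← Finset.sum_filter, hM]
      apply Finset.sum_le_sum_of_subset_of_nonneg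
      · intro j hj
        rw [Finset.mem_filter] at hj
        exact Finset.mem_range.2 hj.2
      · intro _ _ _
        exact Nat.cast_nonneg _
    have h5 : (U.card : ℝ) ≤ M + W * (q / (q - 1) * q ^ J) := by
      calc (U.card : ℝ) ≤ ∑ j ∈ Finset.range (J + 1), ((Fl j).card : ℝ) := h2
        _ ≤ ∑ j ∈ Finset.range (J + 1), ((if j < j₁ then ((Fl j).card : ℝ) else 0) + W * q ^ j) :=
            Finset.sum_le_sum h3
        _ = ∑ j ∈ Finset.range (J + 1), (if j < j₁ then ((Fl j).card : ℝ) else 0) +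
            W * ∑ j ∈ Finset.range (J + 1), q ^ j := by
            rw [Finset.sum_add_distrib, Finset.mul_sum]
        _ ≤ _ := add_le_add h4 (mul_le_mul_of_nonneg_left (geom_le hq1 J) hW0)
    have h6 : q ^ J ≤ (2 : ℝ) ^ (ρ + ε) * X ^ (ρ + ε) := by
      have h7 : q ^ J = ((2 : ℝ) ^ J) ^ (ρ + ε) := by
        rw [hq, ← Real.rpow_natCast, ← Real.rpow_natCast, ← Real.rpow_mul (by norm_num),
          ← Real.rpow_mul (by norm_num), mul_comm]
      rw [h7, ← Real.mul_rpow (by norm_num) hX0.le]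
      exact Real.rpow_le_rpow (by positivity) hJ1 (by linarith)
    have h7 : (1 : ℝ) ≤ X ^ (ρ + ε) := Real.one_le_rpow hX (by linarith)
    have hqq : 0 ≤ q / (q - 1) := div_nonneg (by linarith) (by linarith)
    calc ({t | t ∈ S ∧ h t ≤ X}.ncard : ℝ) ≤ (U.card : ℝ) := by exact_mod_cast h1
      _ ≤ M + W * (q / (q - 1) * q ^ J) := h5
      _ ≤ M * X ^ (ρ + ε) + W * (q / (q - 1) * ((2 : ℝ) ^ (ρ + ε) * X ^ (ρ + ε))) := by
          apply add_le_add
          · exact le_mul_of_one_le_right hM0 h7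
          · exact mul_le_mul_of_nonneg_left (mul_le_mul_of_nonneg_left h6 hqq) hW0
      _ = (M + W * (q / (q - 1)) * (2 : ℝ) ^ (ρ + ε)) * X ^ (ρ + ε) := by ring
  · -- every `t`
    intro t ht hsub
    have ht1 : 1 ≤ t := (one_le_pow₀ (by norm_num)).trans ht
    obtain ⟨j, hj1, hj2⟩ := exists_nat_pow_near (x := t) (y := (2 : ℝ)) ht1 (by norm_num)
    have hjj : j₀ ≤ j := by
      by_contra hcon
      push Not at hcon
      have h5 : (2 : ℝ) ^ (j + 1) ≤ 2 ^ j₀ := pow_le_pow_right₀ (by norm_num) (by omega)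
      linarith
    have hLt : L j ≤ κ * t ^ θ :=
      mul_le_mul_of_nonneg_left (Real.rpow_le_rpow (by positivity) hj1 hθ.le) hκ.le
    obtain ⟨k, hk1, hk2, hk3⟩ := half_full (B := B) (hLpos j) (by linarith : 0 ≤ t) (fun x hx => hsub ⟨hx.1, by
      have := hx.2
      linarith⟩)
    have h1 := hj₀ j hjj
    have h2j : (0 : ℝ) < 2 ^ j := by positivity
    have h3 : (2 : ℝ) ^ (j + 1) = 2 * 2 ^ j := by ring
    refine ⟨(j, k), ⟨hjj, hj1.trans hk3.le, ?_, hk1⟩, ?_⟩
    · simp only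
      linarith
    · simp only [hh]
      have h2 : (k + 1 : ℝ) * L j = k * L j + L j := by ring
      rw [abs_le]
      constructor <;> linarith

end Pool.Agent.Helper65.SGP
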