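import Pool.Agent.Helper65.SGP.Base

/-!
The second moment of the distances between consecutive small gaps (helper65).
-/

set_option autoImplicit false

open Complex Filter Topology Set MeasureTheory

namespace Pool.Agent.Helper65.SGP

open SG hiding dd nn Sep cc

theorem Gap.mono {g t H t' H' : ℝ} (h : Gap g t H) (h1 : t' ≤ t) (h2 : t + H ≤ t' + H') :
    Gap g t' H' := by
  obtain ⟨n, a1, a2, a3, a4, a5⟩ := h
  exact ⟨n, a1, h1.trans a2, a3, a4.trans h2, a5⟩

theorem Gap.mono_g {g g' t H : ℝ} (h : Gap g t H) (h1 : g ≤ g') : Gap g' t H := by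
  obtain ⟨n, a1, a2, a3, a4, a5⟩ := h
  exact ⟨n, a1, a2, a3, a4, a5.trans h1⟩

/-- pointwise dyadic decomposition of the square -/
theorem sq_dyadic {x T : ℝ} (hx : 0 ≤ x) (hxT : x ≤ T) (J : ℕ) (hJ : T < 2 ^ J) :
    x ^ 2 ≤ 2 * x + 16 * ∑ j ∈ Finset.range J, 2 ^ j * max (x - 2 ^ j) 0 := by
  have hnn : ∀ j ∈ Finset.range J, (0 : ℝ) ≤ 2 ^ j * max (x - 2 ^ j) 0 := fun j _ => by positivity
  rcases lt_or_ge x 2 with h | h
  · have h0 := Finset.sum_nonneg hnn
    nlinarith
  · obtain ⟨k, hk1, hk2⟩ := exists_nat_pow_near (x := x) (y := (2 : ℝ)) (by linarith) (by norm_num)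
    have hk : 1 ≤ k := by
      by_contra h0
      have : k = 0 := by omega
      rw [this] at hk2
      norm_num at hk2
      linarith
    obtain ⟨j, rfl⟩ : ∃ j, k = j + 1 := ⟨k - 1, by omega⟩
    have hjJ : j ∈ Finset.range J := by
      rw [Finset.mem_range]
      by_contra h0
      push Not at h0
      have h1 : (2 : ℝ) ^ J ≤ 2 ^ j := pow_le_pow_right₀ (by norm_num) h0
      have h2 : (2 : ℝ) ^ (j + 1) = 2 * 2 ^ j := by ring
      have h3 : (0 : ℝ) < 2 ^ j := by positivity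
      linarith
    have h1 := Finset.single_le_sum hnn hjJ
    have h2 : (2 : ℝ) ^ (j + 1) = 2 * 2 ^ j := by ring
    have h3 : (2 : ℝ) ^ (j + 1 + 1) = 4 * 2 ^ j := by ring
    rw [h2] at hk1
    rw [h3] at hk2
    have h4 : (0 : ℝ) < 2 ^ j := by positivity
    have h5 : x / 2 ≤ max (x - 2 ^ j) 0 := le_max_of_le_left (by linarith)
    have h6 : x / 4 ≤ (2 : ℝ) ^ j := by linarith
    have h7 : x / 4 * (x / 2) ≤ 2 ^ j * max (x - 2 ^ j) 0 := by
      apply mul_le_mul h6 h5 (by positivity) (by positivity)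
    nlinarith

/-- **(2) the second moment** -/
theorem second_moment : ∃ C T0 : ℝ, 0 < C ∧ ∀ η T : ℝ, 0 ≤ η → η ≤ 1 → T0 ≤ T →
    ∀ (ι : Type) (s : Finset ι) (a b : ι → ℝ),
      (∀ i ∈ s, T ≤ a i ∧ a i ≤ b i ∧ b i ≤ 2 * T ∧ ¬ Gap (gq C η T) (a i) (b i - a i)) →
      (∀ i ∈ s, ∀ j ∈ s, i ≠ j → b i ≤ a j ∨ b j ≤ a i) →
      ∑ i ∈ s, (b i - a i) ^ 2 ≤ C * T ^ (1 + η) * Real.log T ^ 38 := by
  obtain ⟨C, T1, hC, h1⟩ := measure_all
  refine ⟨max C (32 * C + 2), max T1 (Real.exp 100), lt_max_of_lt_left hC, ?_⟩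
  intro η T hη hη1 hT ι s a b hab hdis
  have hTT1 : T1 ≤ T := (le_max_left _ _).trans hT
  have hTe : Real.exp 100 ≤ T := (le_max_right _ _).trans hT
  have hTpos : 0 < T := (Real.exp_pos _).trans_le hTe
  have hT1 : 1 ≤ T := by
    have := Real.add_one_le_exp (100 : ℝ)
    linarith
  have hL : 100 ≤ Real.log T := by
    rw [Real.le_log_iff_exp_le hTpos]; exact hTe
  have hLpos : 0 < Real.log T := by linarith
  have hTη : T ≤ T ^ (1 + η) := by
    calc T = T ^ (1 : ℝ) := (Real.rpow_one T).symm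
      _ ≤ T ^ (1 + η) := Real.rpow_le_rpow_of_exponent_le hT1 (by linarith)
  have hpi := Real.pi_pos
  have hgq : gq C η T ≤ gq (max C (32 * C + 2)) η T := by
    unfold gq
    have : C ≤ max C (32 * C + 2) := le_max_left _ _
    gcongr
  -- the number of dyadic scales
  obtain ⟨k, hk1, hk2⟩ := exists_nat_pow_near (x := T) (y := (2 : ℝ)) hT1 (by norm_num)
  set J := k + 1 with hJ
  have hJL : (J : ℝ) ≤ 2 * Real.log T := by
    have h2 := Real.log_le_log (by positivity) hk1
    rw [Real.log_pow] at h2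
    have h3 := Real.log_two_gt_d9
    have hk0 : (0 : ℝ) ≤ k := Nat.cast_nonneg _
    rw [hJ]
    push_cast
    nlinarith
  -- one scale
  have scale : ∀ j : ℕ, (2 : ℝ) ^ j ≤ T →
      ∑ i ∈ s, max (b i - a i - 2 ^ j) 0 ≤ C * T ^ (1 + η) * Real.log T ^ 37 / 2 ^ j := by
    intro j hj
    have h2 := h1 η T (2 ^ j) hη hη1 hTT1 (by positivity) hj
    have hdisj : Set.PairwiseDisjoint (↑s : Set ι) fun i => Ico (a i) (b i - 2 ^ j) := by
      intro i hi j' hj' hne
      rw [Function.onFun, Set.disjoint_left]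
      rintro x ⟨hx1, hx2⟩ ⟨hx3, hx4⟩
      have : (0 : ℝ) < 2 ^ j := by positivity
      rcases hdis i hi j' hj' hne with h | h <;> linarith
    have hsub : (⋃ i ∈ s, Ico (a i) (b i - 2 ^ j)) ⊆
        {t : ℝ | T ≤ t ∧ t ≤ 2 * T ∧ ¬ Gap (gq C η T) t (2 ^ j)} := by
      intro t ht
      rw [Set.mem_iUnion₂] at ht
      obtain ⟨i, hi, ht1, ht2⟩ := ht
      obtain ⟨c1, c2, c3, c4⟩ := hab i hi
      have hp : (0 : ℝ) < 2 ^ j := by positivity
      refine ⟨c1.trans ht1, by linarith, fun hg => c4 ?_⟩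
      exact (hg.mono ht1 (by linarith)).mono_g hgq
    have h3 := (measure_mono (μ := volume) hsub).trans h2
    rw [measure_biUnion_finset hdisj (fun i _ => measurableSet_Ico)] at h3
    have h4 : ∑ i ∈ s, volume (Ico (a i) (b i - 2 ^ j)) =
        ENNReal.ofReal (∑ i ∈ s, max (b i - a i - 2 ^ j) 0) := by
      rw [ENNReal.ofReal_sum_of_nonneg (fun i _ => le_max_right _ _)]
      apply Finset.sum_congr rfl
      intro i _
      rw [Real.volume_Ico]
      have e : b i - 2 ^ j - a i = b i - a i - 2 ^ j := by ring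
      rw [e]
      rcases le_total (b i - a i - 2 ^ j) 0 with h | h
      · rw [max_eq_right h, ENNReal.ofReal_of_nonpos h, ENNReal.ofReal_zero]
      · rw [max_eq_left h]
    rw [h4, ENNReal.ofReal_le_ofReal_iff (by positivity)] at h3
    exact h3
  have hsum1 : ∑ i ∈ s, (b i - a i) ≤ T := by
    have hdisj : Set.PairwiseDisjoint (↑s : Set ι) fun i => Ico (a i) (b i) := by
      intro i hi j' hj' hne
      rw [Function.onFun, Set.disjoint_left]
      rintro x ⟨hx1, hx2⟩ ⟨hx3, hx4⟩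
      rcases hdis i hi j' hj' hne with h | h <;> linarith
    have hsub : (⋃ i ∈ s, Ico (a i) (b i)) ⊆ Icc T (2 * T) := by
      intro t ht
      rw [Set.mem_iUnion₂] at ht
      obtain ⟨i, hi, ht1, ht2⟩ := ht
      obtain ⟨c1, c2, c3, c4⟩ := hab i hi
      exact ⟨c1.trans ht1, by linarith⟩
    have h3 := measure_mono (μ := volume) hsub
    rw [measure_biUnion_finset hdisj (fun i _ => measurableSet_Ico), Real.volume_Icc] at h3
    simp_rw [Real.volume_Ico] at h3
    rw [← ENNReal.ofReal_sum_of_nonneg (fun i hi => by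
      obtain ⟨c1, c2, c3, c4⟩ := hab i hi
      linarith), ENNReal.ofReal_le_ofReal_iff (by linarith)] at h3
    linarith
  have hV0 : 0 ≤ C * T ^ (1 + η) * Real.log T ^ 37 := by positivity
  calc ∑ i ∈ s, (b i - a i) ^ 2
      ≤ ∑ i ∈ s, (2 * (b i - a i) + 16 * ∑ j ∈ Finset.range J, 2 ^ j * max (b i - a i - 2 ^ j) 0) := by
        apply Finset.sum_le_sum
        intro i hi
        obtain ⟨c1, c2, c3, c4⟩ := hab i hi
        exact sq_dyadic (by linarith) (by linarith : b i - a i ≤ T) J hk2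
    _ = 2 * ∑ i ∈ s, (b i - a i) + 16 * ∑ j ∈ Finset.range J, 2 ^ j *
          ∑ i ∈ s, max (b i - a i - 2 ^ j) 0 := by
        rw [Finset.sum_add_distrib, ← Finset.mul_sum, ← Finset.mul_sum, Finset.sum_comm]
        congr 2
        apply Finset.sum_congr rfl
        intro j _
        rw [Finset.mul_sum]
    _ ≤ 2 * T + 16 * ∑ j ∈ Finset.range J, C * T ^ (1 + η) * Real.log T ^ 37 := by
        have h5 : ∀ j ∈ Finset.range J, (2 : ℝ) ^ j * ∑ i ∈ s, max (b i - a i - 2 ^ j) 0 ≤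
            C * T ^ (1 + η) * Real.log T ^ 37 := by
          intro j hj
          rw [Finset.mem_range] at hj
          have h6 : (2 : ℝ) ^ j ≤ T := (pow_le_pow_right₀ (by norm_num) (by omega)).trans hk1
          have h7 := scale j h6
          rw [le_div_iff₀ (by positivity)] at h7
          linarith
        have h8 := Finset.sum_le_sum h5
        linarith
    _ = 2 * T + 16 * (J * (C * T ^ (1 + η) * Real.log T ^ 37)) := by
        rw [Finset.sum_const, Finset.card_range, nsmul_eq_mul]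
    _ ≤ 2 * T ^ (1 + η) * Real.log T ^ 38 +
          16 * ((2 * Real.log T) * (C * T ^ (1 + η) * Real.log T ^ 37)) := by
        have h9 : (1 : ℝ) ≤ Real.log T ^ 38 := one_le_pow₀ (by linarith)
        have h10 : 2 * T ≤ 2 * T ^ (1 + η) * Real.log T ^ 38 := by nlinarith
        have h11 := mul_le_mul_of_nonneg_right hJL hV0
        linarith
    _ = (32 * C + 2) * T ^ (1 + η) * Real.log T ^ 38 := by ring
    _ ≤ max C (32 * C + 2) * T ^ (1 + η) * Real.log T ^ 38 := by
        have : 32 * C + 2 ≤ max C (32 * C + 2) := le_max_right _ _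
        gcongr

end Pool.Agent.Helper65.SGP
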