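import Pool.Agent.Helper65.SGP.Base
import Pool.Agent.Helper65.SGP.Cells

/-!
The heights without a small gap in `[t, t + t ^ θ]` are near the members of a thin set (helper65).
-/

set_option autoImplicit false
set_option maxHeartbeats 4000000

open Filter Topology Set MeasureTheory

namespace Pool.Agent.Helper65.SGP

open SG hiding dd nn Sep cc

/-- `[t, t + H]` contains two consecutive ordinates at distance less than `c` times the mean
spacing `2π / log t` -/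
def Small (c t H : ℝ) : Prop :=
  ∃ m : ℕ, 1 ≤ m ∧ t ≤ ord m ∧ ord m ≤ ord (m + 1) ∧ ord (m + 1) ≤ t + H ∧
    ord (m + 1) - ord m < c * (2 * Real.pi / Real.log t)

/-- the set with a small measure -/
def Bad (c θ : ℝ) : Set ℝ := {t | ¬ Small c t (t ^ θ / 4)}

lemma gq_lt {C c η : ℝ} (hη : 0 ≤ η) (hc : 2 / (3 + η) < c) :
    ∀ᶠ T : ℝ in atTop, gq C η T < c * (2 * Real.pi / Real.log (2 * T)) := by
  have h1 : Tendsto (fun T : ℝ => (1 + C / Real.log T) * (1 + Real.log 2 / Real.log T)) atTop (𝓝 1) := by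
    have h2 : Tendsto (fun T : ℝ => C / Real.log T) atTop (𝓝 0) :=
      tendsto_const_nhds.div_atTop Real.tendsto_log_atTop
    have h3 : Tendsto (fun T : ℝ => Real.log 2 / Real.log T) atTop (𝓝 0) :=
      tendsto_const_nhds.div_atTop Real.tendsto_log_atTop
    have h4 := (h2.const_add 1).mul (h3.const_add 1)
    simpa using h4
  have h2 := h1.const_mul (2 / (3 + η))
  rw [mul_one] at h2
  filter_upwards [h2.eventually_lt_const hc, eventually_gt_atTop (3 : ℝ)] with T h3 h4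
  have hT0 : 0 < T := by linarith
  have hl1 : 0 < Real.log T := Real.log_pos (by linarith)
  have h2l : 0 < Real.log 2 := Real.log_pos (by norm_num)
  rw [Real.log_mul (by norm_num) hT0.ne']
  have h6 : gq C η T =
      (2 / (3 + η) * ((1 + C / Real.log T) * (1 + Real.log 2 / Real.log T))) *
        (2 * Real.pi / (Real.log 2 + Real.log T)) := by
    unfold gq
    have h7 : Real.log 2 + Real.log T ≠ 0 := by positivity
    have h8 : 3 + η ≠ 0 := by positivity
    field_simp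
    ring
  rw [h6]
  exact mul_lt_mul_of_pos_right h3 (by positivity)

lemma bad_measure {c η θ : ℝ} (hη : 0 ≤ η) (hη1 : η ≤ 1) (hθ : 0 < θ) (hθ1 : θ < 1) (hc : 2 / (3 + η) < c)
    (ε : ℝ) (hε : 0 < ε) : ∃ K T₀ : ℝ, ∀ T : ℝ, T₀ ≤ T →
      volume (Bad c θ ∩ Icc T (2 * T)) ≤ ENNReal.ofReal (K * T ^ (1 + η - θ + ε)) := by
  obtain ⟨C, T0, hC, hmain⟩ := measure_all
  have hc0 : 0 < c := lt_trans (by positivity) hc
  have e1 := gq_lt (C := C) hη hc
  have e2 : ∀ᶠ T : ℝ in atTop, Real.log T ^ 37 ≤ T ^ ε := by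
    have h1 := isLittleO_log_rpow_rpow_atTop ((37 : ℕ) : ℝ) hε
    filter_upwards [h1.bound one_pos, eventually_ge_atTop (1 : ℝ)] with T h2 h3
    rw [one_mul, Real.rpow_natCast, Real.norm_of_nonneg (pow_nonneg (Real.log_nonneg h3) _),
      Real.norm_of_nonneg (by positivity)] at h2
    exact h2
  obtain ⟨T₁, hT₁⟩ := eventually_atTop.1 ((e1.and e2).and ((eventually_ge_atTop T0).and
    (eventually_ge_atTop (3 : ℝ))))
  refine ⟨4 * C, T₁, fun T hT => ?_⟩
  obtain ⟨⟨g1, g2⟩, g3, g4⟩ := hT₁ T hT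
  have hT0 : 0 < T := by linarith
  have hTθ : 0 < T ^ θ := by positivity
  have hTθ1 : T ^ θ ≤ T := by
    calc T ^ θ ≤ T ^ (1 : ℝ) := Real.rpow_le_rpow_of_exponent_le (by linarith) hθ1.le
      _ = T := Real.rpow_one T
  refine (measure_mono ?_).trans ((hmain η T (T ^ θ / 4) hη hη1 g3 (by positivity) (by linarith)).trans ?_)
  · rintro t ⟨ht, ht1, ht2⟩
    refine ⟨ht1, ht2, ?_⟩
    rintro ⟨m, h1, h2, h3, h4, h5⟩
    apply ht
    have h6 : T ^ θ ≤ t ^ θ := Real.rpow_le_rpow hT0.le ht1 hθ.le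
    refine ⟨m, h1, h2, h3, h4.trans (by linarith), lt_of_le_of_lt h5 (lt_of_lt_of_le g1 ?_)⟩
    apply mul_le_mul_of_nonneg_left _ hc0.le
    exact div_le_div_of_nonneg_left (by positivity) (Real.log_pos (by linarith))
      (Real.log_le_log (by linarith) ht2)
  · apply ENNReal.ofReal_le_ofReal
    have h1 : T ^ (1 + η - θ + ε) = T ^ (1 + η) * T ^ ε / T ^ θ := by
      rw [show 1 + η - θ + ε = 1 + η + ε - θ by ring, Real.rpow_sub hT0, Real.rpow_add hT0]
    rw [h1]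
    calc C * T ^ (1 + η) * Real.log T ^ 37 / (T ^ θ / 4) = 4 * C * (T ^ (1 + η) * Real.log T ^ 37 / T ^ θ) := by
          field_simp
      _ ≤ 4 * C * (T ^ (1 + η) * T ^ ε / T ^ θ) := by
          apply mul_le_mul_of_nonneg_left _ (by positivity)
          apply div_le_div_of_nonneg_right _ hTθ.le
          exact mul_le_mul_of_nonneg_left g2 (by positivity)

/-- after a point without a small gap all points are in `Bad` for a while -/
lemma spread {c θ : ℝ} (hc : 0 < c) (hθ : 0 < θ) (hθ1 : θ < 1) : ∀ t : ℝ, 2 ≤ t →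
    ¬ Small c t (t ^ θ) → Ico t (t + 1 / 4 * t ^ θ) ⊆ Bad c θ := by
  intro t ht h s hs hs'
  apply h
  obtain ⟨m, q1, q2, q3, q4, q5⟩ := hs'
  have ht0 : 0 < t := by linarith
  have h1 : t ^ θ ≤ t := by
    calc t ^ θ ≤ t ^ (1 : ℝ) := Real.rpow_le_rpow_of_exponent_le (by linarith) hθ1.le
      _ = t := Real.rpow_one t
  have h2 : s ≤ 2 * t := by linarith [hs.2]
  have h3 : s ^ θ ≤ 2 * t ^ θ := by
    calc s ^ θ ≤ (2 * t) ^ θ := Real.rpow_le_rpow (by linarith [hs.1]) h2 hθ.le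
      _ = 2 ^ θ * t ^ θ := Real.mul_rpow (by norm_num) ht0.le
      _ ≤ 2 * t ^ θ := by
          apply mul_le_mul_of_nonneg_right _ (by positivity)
          calc (2 : ℝ) ^ θ ≤ 2 ^ (1 : ℝ) := Real.rpow_le_rpow_of_exponent_le (by norm_num) hθ1.le
            _ = 2 := Real.rpow_one 2
  have h4 : 0 < t ^ θ := by positivity
  refine ⟨m, q1, hs.1.trans q2, q3, q4.trans (by linarith [hs.2]), lt_of_lt_of_le q5 ?_⟩
  apply mul_le_mul_of_nonneg_left _ hc.le
  exact div_le_div_of_nonneg_left (by positivity) (Real.log_pos (by linarith))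
    (Real.log_le_log (by linarith) hs.1)

/-- **The thin set.** -/
theorem thin {c η θ : ℝ} (hη : 0 ≤ η) (hη1 : η ≤ 1) (hθ : 0 < θ) (hθ1 : θ < 1) (hc : 2 / (3 + η) < c) :
    ∃ (S : Set (ℕ × ℕ)) (h : ℕ × ℕ → ℝ),
      (∀ ε : ℝ, 0 < ε → ∃ C : ℝ, ∀ X : ℝ, 1 ≤ X →
        {t | t ∈ S ∧ h t ≤ X}.Finite ∧
          ({t | t ∈ S ∧ h t ≤ X}.ncard : ℝ) ≤ C * X ^ (max 0 (1 + η - 2 * θ) + ε)) ∧
      ∃ t₀ D : ℝ, 0 < D ∧ ∀ t : ℝ, t₀ ≤ t → ¬ Small c t (t ^ θ) → ∃ p ∈ S, |h p - t| ≤ D * t ^ θ := by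
  have hc0 : 0 < c := lt_trans (by positivity) hc
  obtain ⟨S, h, h1, t₀, D, hD, h2⟩ := cells (B := Bad c θ) (σ := 1 + η - θ) hθ hθ1 (κ := 1 / 4) (by norm_num)
    (fun ε hε => bad_measure hη hη1 hθ hθ1 hc ε hε)
  refine ⟨S, h, ?_, max t₀ 2, D, hD, fun t ht hbad => ?_⟩
  · intro ε hε
    obtain ⟨C, hC⟩ := h1 ε hε
    refine ⟨C, fun X hX => ?_⟩
    have := hC X hX
    rw [show 1 + η - θ - θ = 1 + η - 2 * θ by ring] at this
    exact this
  · exact h2 t ((le_max_left _ _).trans ht) (spread hc0 hθ hθ1 t ((le_max_right _ _).trans ht) hbad)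

end Pool.Agent.Helper65.SGP
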