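import Pool.Agent.Helper65.SGP.Thin

/-!
The number of the `v ≤ N` with a point without a small gap near `G v` (helper65).
-/

set_option autoImplicit false
set_option maxHeartbeats 4000000

open Filter Topology Set

namespace Pool.Agent.Helper65.SGP

/-- steps of size at least `v^(e-1-o(1))` and values at most `v^(e+o(1))` -/
def Growth (e : ℝ) (G : ℕ → ℝ) : Prop :=
  ∀ δ : ℝ, 0 < δ → ∀ᶠ v : ℕ in atTop, (v : ℝ) ^ (e - 1 - δ) ≤ G (v + 1) - G v ∧ G v ≤ (v : ℝ) ^ (e + δ)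

/-- a set of indices whose values lie in a short interval -/
lemma card_fiber {G : ℕ → ℝ} {s ℓ x : ℝ} {V : ℕ} (hs : 0 < s) (hℓ : 0 ≤ ℓ)
    (hG : ∀ v : ℕ, V ≤ v → v < 2 * V → s ≤ G (v + 1) - G v) (F : Finset ℕ)
    (hF : ∀ v ∈ F, V ≤ v ∧ v < 2 * V ∧ |x - G v| ≤ ℓ) : (F.card : ℝ) ≤ 1 + 2 * ℓ / s := by
  rcases F.eq_empty_or_nonempty with h | hne
  · rw [h, Finset.card_empty, Nat.cast_zero]
    positivity
  set m := F.min' hne with hm
  have hmF := F.min'_mem hne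
  have hstep : ∀ k : ℕ, m + k < 2 * V → s * k ≤ G (m + k) - G m := by
    intro k
    induction k with
    | zero => intro _; simp
    | succ k ih =>
      intro hk
      have h1 := ih (by omega)
      have h2 := hG (m + k) (by have := (hF m hmF).1; omega) (by omega)
      push_cast
      rw [← add_assoc]
      linarith
  have hsub : F ⊆ Finset.Icc m (m + ⌊2 * ℓ / s⌋₊) := by
    intro v hv
    have h1 : m ≤ v := F.min'_le v hv
    obtain ⟨k, rfl⟩ := Nat.exists_eq_add_of_le h1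
    rw [Finset.mem_Icc]
    refine ⟨h1, Nat.add_le_add_left (Nat.le_floor ?_) _⟩
    obtain ⟨_, h2, h3⟩ := hF _ hv
    obtain ⟨_, _, h4⟩ := hF m hmF
    have h5 := hstep k h2
    rw [le_div_iff₀ hs]
    obtain ⟨a1, a2⟩ := abs_le.1 h3
    obtain ⟨b1, b2⟩ := abs_le.1 h4
    linarith
  have h1 := Finset.card_le_card hsub
  rw [Nat.card_Icc] at h1
  have h2 : m + ⌊2 * ℓ / s⌋₊ + 1 - m = ⌊2 * ℓ / s⌋₊ + 1 := by omega
  rw [h2] at h1
  have h3 : (F.card : ℝ) ≤ (⌊2 * ℓ / s⌋₊ : ℝ) + 1 := by exact_mod_cast h1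
  have h4 := Nat.floor_le (show 0 ≤ 2 * ℓ / s by positivity)
  linarith

/-- the exceptional indices -/
def Exc (c θ D : ℝ) (G : ℕ → ℝ) (v : ℕ) : Prop :=
  ∃ t : ℝ, |t - G v| ≤ D * (G v) ^ θ ∧ ¬ Small c t (t ^ θ)

/-- the values are large -/
lemma growth_large {e : ℝ} {G : ℕ → ℝ} (he : 1 ≤ e) (hG : Growth e G) : Tendsto G atTop atTop := by
  obtain ⟨v₀, hv₀⟩ := eventually_atTop.1 (hG (1 / 2) (by norm_num))
  have h1 : ∀ v : ℕ, max v₀ 1 ≤ v → (v : ℝ) ^ (-(1 / 2) : ℝ) ≤ G (v + 1) - G v := by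
    intro v hv
    have hv1 : (1 : ℝ) ≤ v := by exact_mod_cast (le_max_right _ _).trans hv
    refine le_trans ?_ (hv₀ v ((le_max_left _ _).trans hv)).1
    apply Real.rpow_le_rpow_of_exponent_le hv1
    linarith
  -- `G (2^?)`: comparison with `√v`
  have h2 : ∀ v : ℕ, max v₀ 1 ≤ v → G (max v₀ 1) + (Real.sqrt v - Real.sqrt (max v₀ 1 : ℕ)) ≤ G v := by
    intro v hv
    induction v, hv using Nat.le_induction with
    | base => linarith
    | succ v hv ih =>
      have h3 := h1 v hv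
      have hv1 : (1 : ℝ) ≤ v := by exact_mod_cast (le_max_right _ _).trans hv
      have h4 : Real.sqrt ((v + 1 : ℕ) : ℝ) - Real.sqrt v ≤ (v : ℝ) ^ (-(1 / 2) : ℝ) := by
        have h5 : (v : ℝ) ^ (-(1 / 2) : ℝ) = 1 / Real.sqrt v := by
          rw [Real.rpow_neg (by linarith), Real.sqrt_eq_rpow, one_div (( v : ℝ) ^ (1 / 2 : ℝ))]
        rw [h5]
        have h6 : 0 < Real.sqrt v := Real.sqrt_pos.2 (by linarith)
        have h7 : Real.sqrt v ≤ Real.sqrt ((v + 1 : ℕ) : ℝ) := Real.sqrt_le_sqrt (by push_cast; linarith)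
        have h8 : Real.sqrt ((v + 1 : ℕ) : ℝ) ^ 2 = v + 1 := by
          rw [Real.sq_sqrt (by positivity)]
          push_cast
          ring
        have h9 : Real.sqrt v ^ 2 = v := Real.sq_sqrt (by linarith)
        rw [le_div_iff₀ h6]
        nlinarith
      linarith
  have h3 : Tendsto (fun v : ℕ => G (max v₀ 1) + (Real.sqrt v - Real.sqrt (max v₀ 1 : ℕ))) atTop atTop := by
    apply tendsto_atTop_add_const_left
    apply tendsto_atTop_add_const_right
    exact Real.tendsto_sqrt_atTop.comp tendsto_natCast_atTop_atTop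
  exact tendsto_atTop_mono' _ (eventually_atTop.2 ⟨_, h2⟩) h3

/-- **the number of the exceptional indices** -/
theorem values {c η θ D e : ℝ} {G : ℕ → ℝ} (hη : 0 ≤ η) (hη1 : η ≤ 1) (hθ : 0 < θ) (hθ1 : θ < 1)
    (hθη : 2 * θ ≤ 1 + η) (hc : 2 / (3 + η) < c) (he : 1 ≤ e) (hG : Growth e G) (ε : ℝ) (hε : 0 < ε) :
    ∃ N₀ : ℕ, ∀ N : ℕ, N₀ ≤ N → ({v : ℕ | v ≤ N ∧ Exc c θ D G v}.ncard : ℝ) ≤
      (N : ℝ) ^ (max (e * (1 + η - 2 * θ)) (1 - e * (θ - η)) + ε) := by
  classical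
  obtain ⟨S, h, hS, t₀, D₀, hD₀, hbad⟩ := thin hη hη1 hθ hθ1 hc
  set ρ : ℝ := 1 + η - 2 * θ with hρ
  have hρ0 : 0 ≤ ρ := by rw [hρ]; linarith
  rw [max_eq_right hρ0] at hS
  -- the choice of `δ`
  set Q : ℝ := e + ρ + θ + 2 with hQ
  have hQ0 : 0 < Q := by positivity
  set δ : ℝ := min 1 (ε / (4 * Q)) with hδ
  have hδ0 : 0 < δ := lt_min one_pos (by positivity)
  have hδ1 : δ ≤ 1 := min_le_left _ _
  have hδQ : δ * Q ≤ ε / 4 := by
    calc δ * Q ≤ ε / (4 * Q) * Q := mul_le_mul_of_nonneg_right (min_le_right _ _) hQ0.le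
      _ = ε / 4 := by field_simp
  set E : ℝ := max (e * ρ) (1 - e * (θ - η)) with hE
  obtain ⟨C0, hC0⟩ := hS δ hδ0
  set C : ℝ := |C0| with hC
  have hC00 : 0 ≤ C := abs_nonneg _
  set D₁ : ℝ := 2 * D₀ + |D| with hD₁
  have hD₁0 : 0 < D₁ := by positivity
  -- large values
  have hinf := growth_large he hG
  have f1 : ∀ᶠ v : ℕ in atTop, D₁ * 2 ≤ (G v) ^ (1 - θ) :=
    ((tendsto_rpow_atTop (show 0 < 1 - θ by linarith)).comp hinf).eventually (eventually_ge_atTop _)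
  have f2 : ∀ᶠ v : ℕ in atTop, 2 * |t₀| + 1 ≤ G v := hinf.eventually (eventually_ge_atTop _)
  obtain ⟨v₁, hv₁⟩ := eventually_atTop.1 (((hG δ hδ0).and (f1.and f2)).and (eventually_ge_atTop 1))
  -- a bad index is near a member of `S`
  have hnear : ∀ v : ℕ, v₁ ≤ v → Exc c θ D G v → ∃ p ∈ S, |h p - G v| ≤ D₁ * (G v) ^ θ ∧ h p ≤ 2 * G v := by
    rintro v hv ⟨t, ht, hcon⟩
    obtain ⟨⟨⟨_, _⟩, g1, g2⟩, _⟩ := hv₁ v hv
    have hF : 0 < G v := by
      have := abs_nonneg t₀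
      linarith
    have k0 : D₁ * (G v) ^ θ ≤ G v / 2 := by
      have e1 : (G v) ^ θ * (G v) ^ (1 - θ) = G v := by
        rw [← Real.rpow_add hF, add_sub_cancel, Real.rpow_one]
      have e0 : 0 < (G v) ^ θ := by positivity
      nlinarith
    have hDD : |D| ≤ D₁ := by rw [hD₁]; linarith
    have k1 : |D| * (G v) ^ θ ≤ G v / 2 :=
      (mul_le_mul_of_nonneg_right hDD (by positivity)).trans k0
    have k2 : |t - G v| ≤ |D| * (G v) ^ θ :=
      ht.trans (mul_le_mul_of_nonneg_right (le_abs_self D) (by positivity))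
    obtain ⟨k3, k4⟩ := abs_le.1 k2
    have k5 : t₀ ≤ t := by
      have := le_abs_self t₀
      linarith
    have k6 : t ≤ 2 * G v := by linarith
    have k7 : 0 < t := by linarith
    obtain ⟨p, hp, hpt⟩ := hbad t k5 hcon
    have k8 : t ^ θ ≤ 2 * (G v) ^ θ := by
      calc t ^ θ ≤ (2 * G v) ^ θ := Real.rpow_le_rpow k7.le k6 hθ.le
        _ = 2 ^ θ * (G v) ^ θ := Real.mul_rpow (by norm_num) hF.le
        _ ≤ 2 * (G v) ^ θ := by
            apply mul_le_mul_of_nonneg_right _ (by positivity)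
            calc (2 : ℝ) ^ θ ≤ 2 ^ (1 : ℝ) := Real.rpow_le_rpow_of_exponent_le (by norm_num) hθ1.le
              _ = 2 := Real.rpow_one 2
    have k10 : |h p - G v| ≤ |h p - t| + |t - G v| := abs_sub_le _ _ _
    have k11 : D₀ * t ^ θ ≤ D₀ * (2 * (G v) ^ θ) := mul_le_mul_of_nonneg_left k8 hD₀.le
    have k12 : D₁ * (G v) ^ θ = D₀ * (2 * (G v) ^ θ) + |D| * (G v) ^ θ := by rw [hD₁]; ring
    have k13 : |h p - G v| ≤ D₁ * (G v) ^ θ := by linarith
    refine ⟨p, hp, k13, ?_⟩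
    have := (abs_le.1 k13).2
    linarith
  -- one dyadic level
  set M : ℝ := C * 2 ^ (ρ + δ) * (1 + 2 * D₁ * 2 ^ (e - 1)) with hM
  have hM0 : 0 ≤ M := by positivity
  have hlevel : ∀ i : ℕ, v₁ ≤ 2 ^ i →
      ({v : ℕ | 2 ^ i ≤ v ∧ v < 2 * 2 ^ i ∧ Exc c θ D G v}.ncard : ℝ) ≤ M * ((2 : ℝ) * 2 ^ i) ^ (E + ε / 2) := by
    intro i hi
    set V : ℕ := 2 ^ i with hV
    have hV1 : 1 ≤ V := Nat.one_le_two_pow
    have hVR : ((2 : ℝ) ^ i) = (V : ℝ) := by rw [hV]; push_cast; ring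
    rw [hVR]
    have hV1R : (1 : ℝ) ≤ V := by exact_mod_cast hV1
    have hV0 : (0 : ℝ) < V := by linarith
    set Y : ℝ := 2 * V with hY
    have hY1 : 1 ≤ Y := by rw [hY]; linarith
    have hY0 : 0 < Y := by linarith
    set X : ℝ := Y ^ (e + δ) with hX
    have hX1 : 1 ≤ X := Real.one_le_rpow hY1 (by linarith)
    have hX0 : 0 < X := by linarith
    have hfin0 : {v : ℕ | V ≤ v ∧ v < 2 * V ∧ Exc c θ D G v}.Finite :=
      (Set.finite_Icc V (2 * V)).subset fun v hv => ⟨hv.1, hv.2.1.le⟩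
    rw [Set.ncard_eq_toFinset_card _ hfin0]
    set F := hfin0.toFinset with hFdef
    have hmem : ∀ v ∈ F, V ≤ v ∧ v < 2 * V ∧ Exc c θ D G v := fun v hv => by
      rwa [hFdef, Set.Finite.mem_toFinset] at hv
    have hGX : ∀ v : ℕ, V ≤ v → v < 2 * V → G v ≤ X := by
      intro v h1 h2
      refine (hv₁ v (hi.trans h1)).1.1.2.trans ?_
      apply Real.rpow_le_rpow (Nat.cast_nonneg _) _ (by linarith)
      have : (v : ℝ) ≤ ((2 * V : ℕ) : ℝ) := by exact_mod_cast h2.le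
      rw [hY]
      push_cast at this
      exact this
    have hchoose : ∀ v : ℕ, ∃ p : ℕ × ℕ, v ∈ F → p ∈ S ∧ |h p - G v| ≤ D₁ * X ^ θ ∧ h p ≤ 2 * X := by
      intro v
      by_cases hv : v ∈ F
      · obtain ⟨h1, h2, h3⟩ := hmem v hv
        obtain ⟨p, hp, h4, h5⟩ := hnear v (hi.trans h1) h3
        have h6 := hGX v h1 h2
        have hGp : 0 ≤ G v := by
          have h7 := (hv₁ v (hi.trans h1)).1.2.2
          have := abs_nonneg t₀
          linarith
        refine ⟨p, fun _ => ⟨hp, h4.trans ?_, h5.trans (by linarith)⟩⟩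
        apply mul_le_mul_of_nonneg_left _ hD₁0.le
        exact Real.rpow_le_rpow hGp h6 hθ.le
      · exact ⟨(0, 0), fun h => absurd h hv⟩
    choose π hπ using hchoose
    obtain ⟨hSfin, hScard⟩ := hC0 (2 * X) (by linarith)
    set U := hSfin.toFinset with hU
    have hmaps : ∀ v ∈ F, π v ∈ U := by
      intro v hv
      obtain ⟨h1, _, h3⟩ := hπ v hv
      rw [hU, Set.Finite.mem_toFinset]
      exact ⟨h1, h3⟩
    set s : ℝ := (V : ℝ) ^ (e - 1) * Y ^ (-δ) with hs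
    have hs0 : 0 < s := by positivity
    have hstep : ∀ v : ℕ, V ≤ v → v < 2 * V → s ≤ G (v + 1) - G v := by
      intro v h1 h2
      refine le_trans ?_ (hv₁ v (hi.trans h1)).1.1.1
      have hvV : (V : ℝ) ≤ v := by exact_mod_cast h1
      have hv0 : (0 : ℝ) < v := by linarith
      have hvY : (v : ℝ) ≤ Y := by
        have : (v : ℝ) ≤ ((2 * V : ℕ) : ℝ) := by exact_mod_cast h2.le
        rw [hY]
        push_cast at this
        exact this
      rw [show e - 1 - δ = (e - 1) + (-δ) by ring, Real.rpow_add hv0, hs]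
      apply mul_le_mul (Real.rpow_le_rpow hV0.le hvV (by linarith))
        (Real.rpow_le_rpow_of_nonpos hv0 hvY (by linarith)) (by positivity) (by positivity)
    have hfib : ∀ p ∈ U, ((F.filter fun v => π v = p).card : ℝ) ≤ 1 + 2 * (D₁ * X ^ θ) / s := by
      intro p _
      refine card_fiber (x := h p) hs0 (by positivity) hstep _ ?_
      intro v hv
      rw [Finset.mem_filter] at hv
      obtain ⟨h1, h2, _⟩ := hmem v hv.1
      obtain ⟨_, h4, _⟩ := hπ v hv.1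
      rw [hv.2] at h4
      exact ⟨h1, h2, h4⟩
    have hcard : (F.card : ℝ) ≤ (U.card : ℝ) * (1 + 2 * (D₁ * X ^ θ) / s) := by
      have h1 : F.card = ∑ p ∈ U, (F.filter fun v => π v = p).card :=
        Finset.card_eq_sum_card_fiberwise hmaps
      calc (F.card : ℝ) = ∑ p ∈ U, ((F.filter fun v => π v = p).card : ℝ) := by exact_mod_cast h1
        _ ≤ ∑ _p ∈ U, (1 + 2 * (D₁ * X ^ θ) / s) := Finset.sum_le_sum hfib
        _ = (U.card : ℝ) * (1 + 2 * (D₁ * X ^ θ) / s) := by rw [Finset.sum_const, nsmul_eq_mul]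
    have hUcard : (U.card : ℝ) ≤ C * (2 * X) ^ (ρ + δ) := by
      rw [Set.ncard_eq_toFinset_card _ hSfin] at hScard
      exact hScard.trans (mul_le_mul_of_nonneg_right (le_abs_self _) (by positivity))
    -- exponents
    have hXρ : (2 * X) ^ (ρ + δ) = 2 ^ (ρ + δ) * Y ^ ((e + δ) * (ρ + δ)) := by
      rw [Real.mul_rpow (by norm_num) hX0.le, hX, ← Real.rpow_mul hY0.le]
    have hXθ : X ^ θ / s ≤ 2 ^ (e - 1) * Y ^ ((e + δ) * θ + δ + 1 - e) := by
      have h1 : (V : ℝ) ^ (e - 1) = Y ^ (e - 1) / 2 ^ (e - 1) := by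
        rw [hY, Real.mul_rpow (by norm_num) hV0.le]
        field_simp
      rw [hs, h1, hX, ← Real.rpow_mul hY0.le]
      have h2 : Y ^ ((e + δ) * θ + δ + 1 - e) = Y ^ ((e + δ) * θ) * Y ^ δ / Y ^ (e - 1) := by
        rw [← Real.rpow_add hY0, ← Real.rpow_sub hY0]
        congr 1
        ring
      rw [h2, Real.rpow_neg hY0.le]
      apply le_of_eq
      field_simp
    have hmid : 1 + 2 * (D₁ * X ^ θ) / s ≤ 1 + 2 * D₁ * (2 ^ (e - 1) * Y ^ ((e + δ) * θ + δ + 1 - e)) := by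
      have h1 : 2 * (D₁ * X ^ θ) / s = 2 * D₁ * (X ^ θ / s) := by ring
      rw [h1]
      have := mul_le_mul_of_nonneg_left hXθ (show 0 ≤ 2 * D₁ by positivity)
      linarith
    have hfinal : Y ^ ((e + δ) * (ρ + δ)) * (1 + 2 * D₁ * (2 ^ (e - 1) * Y ^ ((e + δ) * θ + δ + 1 - e))) ≤
        (1 + 2 * D₁ * 2 ^ (e - 1)) * Y ^ (E + ε / 2) := by
      have q1 : Y ^ ((e + δ) * (ρ + δ)) ≤ Y ^ (E + ε / 2) := by
        apply Real.rpow_le_rpow_of_exponent_le hY1
        have h1 : e * ρ ≤ E := le_max_left _ _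
        have h2 : (e + δ) * (ρ + δ) = e * ρ + δ * (e + ρ + δ) := by ring
        have h3 : δ * (e + ρ + δ) ≤ δ * Q := by
          apply mul_le_mul_of_nonneg_left _ hδ0.le
          rw [hQ]; linarith
        linarith
      have q2 : Y ^ ((e + δ) * (ρ + δ)) * Y ^ ((e + δ) * θ + δ + 1 - e) ≤ Y ^ (E + ε / 2) := by
        rw [← Real.rpow_add hY0]
        apply Real.rpow_le_rpow_of_exponent_le hY1
        have h1 : 1 - e * (θ - η) ≤ E := le_max_right _ _
        have h2 : (e + δ) * (ρ + δ) + ((e + δ) * θ + δ + 1 - e) =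
            1 - e * (θ - η) + δ * (e + ρ + δ + θ + 1) := by rw [hρ]; ring
        have h3 : δ * (e + ρ + δ + θ + 1) ≤ δ * Q := by
          apply mul_le_mul_of_nonneg_left _ hδ0.le
          rw [hQ]; linarith
        linarith
      calc Y ^ ((e + δ) * (ρ + δ)) * (1 + 2 * D₁ * (2 ^ (e - 1) * Y ^ ((e + δ) * θ + δ + 1 - e))) =
          Y ^ ((e + δ) * (ρ + δ)) + 2 * D₁ * 2 ^ (e - 1) *
            (Y ^ ((e + δ) * (ρ + δ)) * Y ^ ((e + δ) * θ + δ + 1 - e)) := by ring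
        _ ≤ Y ^ (E + ε / 2) + 2 * D₁ * 2 ^ (e - 1) * Y ^ (E + ε / 2) :=
            add_le_add q1 (mul_le_mul_of_nonneg_left q2 (by positivity))
        _ = _ := by ring
    calc (F.card : ℝ) ≤ (U.card : ℝ) * (1 + 2 * (D₁ * X ^ θ) / s) := hcard
      _ ≤ (C * (2 ^ (ρ + δ) * Y ^ ((e + δ) * (ρ + δ)))) *
          (1 + 2 * D₁ * (2 ^ (e - 1) * Y ^ ((e + δ) * θ + δ + 1 - e))) := by
          rw [← hXρ]
          exact mul_le_mul hUcard hmid (by positivity) (by positivity)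
      _ = C * 2 ^ (ρ + δ) * (Y ^ ((e + δ) * (ρ + δ)) *
          (1 + 2 * D₁ * (2 ^ (e - 1) * Y ^ ((e + δ) * θ + δ + 1 - e)))) := by ring
      _ ≤ C * 2 ^ (ρ + δ) * ((1 + 2 * D₁ * 2 ^ (e - 1)) * Y ^ (E + ε / 2)) :=
          mul_le_mul_of_nonneg_left hfinal (by positivity)
      _ = M * Y ^ (E + ε / 2) := by rw [hM]; ring
  -- all levels
  have hE0 : 0 ≤ E := le_trans (by positivity) (le_max_left _ _)
  have g1 : ∀ᶠ N : ℕ in atTop, (2 * v₁ + 1 : ℝ) + M * 2 ^ (E + ε / 2) * (Real.log N / Real.log 2 + 1) ≤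
      (N : ℝ) ^ (ε / 2) := by
    have h1 : Tendsto (fun N : ℕ => ((2 * v₁ + 1 : ℝ) + M * 2 ^ (E + ε / 2) * (Real.log N / Real.log 2 + 1)) /
        (N : ℝ) ^ (ε / 2)) atTop (𝓝 0) := by
      have h2 : Tendsto (fun N : ℕ => Real.log N / (N : ℝ) ^ (ε / 2)) atTop (𝓝 0) :=
        ((isLittleO_log_rpow_atTop (by positivity : 0 < ε / 2)).tendsto_div_nhds_zero).comp
          tendsto_natCast_atTop_atTop
      have h3 : Tendsto (fun N : ℕ => 1 / (N : ℝ) ^ (ε / 2)) atTop (𝓝 0) :=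
        tendsto_const_nhds.div_atTop ((tendsto_rpow_atTop (by positivity)).comp tendsto_natCast_atTop_atTop)
      have h4 := (h3.const_mul ((2 * v₁ + 1 : ℝ) + M * 2 ^ (E + ε / 2))).add
        (h2.const_mul (M * 2 ^ (E + ε / 2) / Real.log 2))
      simp only [mul_zero, add_zero] at h4
      refine h4.congr fun N => ?_
      ring
    filter_upwards [h1.eventually_lt_const (show (0 : ℝ) < 1 by norm_num), eventually_ge_atTop 1] with N hN hN1
    have hN0 : (0 : ℝ) < N := by exact_mod_cast hN1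
    rw [div_lt_one (by positivity)] at hN
    exact hN.le
  obtain ⟨N₀, hN₀⟩ := eventually_atTop.1 (g1.and (eventually_ge_atTop 1))
  refine ⟨N₀, fun N hN => ?_⟩
  obtain ⟨g2, g3⟩ := hN₀ N hN
  have hN1 : (1 : ℝ) ≤ N := by exact_mod_cast g3
  have hN0 : (0 : ℝ) < N := by linarith
  set J : ℕ := Nat.log 2 N with hJ
  set A : ℕ → Set ℕ := fun i => {v : ℕ | 2 ^ i ≤ v ∧ v < 2 * 2 ^ i ∧ Exc c θ D G v} with hA
  have hAfin : ∀ i, (A i).Finite := fun i =>
    (Set.finite_Icc (2 ^ i) (2 * 2 ^ i)).subset fun v hv => ⟨hv.1, hv.2.1.le⟩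
  have hsub : {v : ℕ | v ≤ N ∧ Exc c θ D G v} ⊆
      ((Finset.range (2 * v₁ + 1) ∪ ((Finset.range (J + 1)).filter fun i => v₁ ≤ 2 ^ i).biUnion
        fun i => (hAfin i).toFinset : Finset ℕ) : Set ℕ) := by
    rintro v ⟨hvN, hv⟩
    simp only [Finset.coe_union, Set.mem_union, Finset.coe_range, Set.mem_Iio, Finset.coe_biUnion,
      Set.mem_iUnion, Set.Finite.coe_toFinset, Finset.coe_filter, Finset.mem_range]
    rcases Nat.lt_or_ge v (2 * v₁ + 1) with h1 | h1
    · exact Or.inl h1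
    · right
      have hv0 : v ≠ 0 := by omega
      have h2 : 2 ^ Nat.log 2 v ≤ v := Nat.pow_log_le_self 2 hv0
      have h3 : v < 2 ^ (Nat.log 2 v + 1) := Nat.lt_pow_succ_log_self (by norm_num) v
      have h4 : 2 ^ (Nat.log 2 v + 1) = 2 * 2 ^ Nat.log 2 v := by ring
      refine ⟨Nat.log 2 v, ⟨?_, ?_⟩, h2, by omega, hv⟩
      · exact Nat.lt_succ_of_le (Nat.log_mono_right hvN)
      · omega
  have h1 := Set.ncard_le_ncard hsub (Finset.finite_toSet _)
  rw [Set.ncard_coe_finset] at h1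
  have h2 := h1.trans (Finset.card_union_le _ _)
  rw [Finset.card_range] at h2
  have h3 : ((((Finset.range (J + 1)).filter fun i => v₁ ≤ 2 ^ i).biUnion
        fun i => (hAfin i).toFinset).card : ℝ) ≤ ((J : ℝ) + 1) * (M * (2 * N : ℝ) ^ (E + ε / 2)) := by
    have h4 : (((Finset.range (J + 1)).filter fun i => v₁ ≤ 2 ^ i).biUnion
        fun i => (hAfin i).toFinset).card ≤
        ∑ i ∈ (Finset.range (J + 1)).filter fun i => v₁ ≤ 2 ^ i, ((hAfin i).toFinset).card :=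
      Finset.card_biUnion_le
    calc ((((Finset.range (J + 1)).filter fun i => v₁ ≤ 2 ^ i).biUnion
        fun i => (hAfin i).toFinset).card : ℝ) ≤
        ∑ i ∈ (Finset.range (J + 1)).filter fun i => v₁ ≤ 2 ^ i, (((hAfin i).toFinset).card : ℝ) := by
          exact_mod_cast h4
      _ ≤ ∑ _i ∈ (Finset.range (J + 1)).filter fun i => v₁ ≤ 2 ^ i, M * (2 * N : ℝ) ^ (E + ε / 2) := by
          apply Finset.sum_le_sum
          intro i hi
          rw [Finset.mem_filter, Finset.mem_range] at hi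
          have h5 := hlevel i hi.2
          rw [Set.ncard_eq_toFinset_card _ (hAfin i)] at h5
          refine h5.trans (mul_le_mul_of_nonneg_left ?_ hM0)
          apply Real.rpow_le_rpow (by positivity) _ (by positivity)
          have h6 : 2 ^ i ≤ N := (Nat.pow_le_pow_right (by norm_num) (by omega : i ≤ J)).trans
            (Nat.pow_log_le_self 2 (by omega))
          have h7 : (2 : ℝ) ^ i ≤ N := by exact_mod_cast h6
          linarith
      _ ≤ ((J : ℝ) + 1) * (M * (2 * N : ℝ) ^ (E + ε / 2)) := by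
          rw [Finset.sum_const, nsmul_eq_mul]
          apply mul_le_mul_of_nonneg_right _ (by positivity)
          have := Finset.card_filter_le (Finset.range (J + 1)) (fun i => v₁ ≤ 2 ^ i)
          rw [Finset.card_range] at this
          exact_mod_cast this
  have hJlog : (J : ℝ) ≤ Real.log N / Real.log 2 := by
    have h5 : 2 ^ J ≤ N := Nat.pow_log_le_self 2 (by omega)
    have h6 : (2 : ℝ) ^ J ≤ N := by exact_mod_cast h5
    have h7 := Real.log_le_log (by positivity) h6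
    rw [Real.log_pow] at h7
    rwa [le_div_iff₀ (Real.log_pos (by norm_num))]
  calc ({v : ℕ | v ≤ N ∧ Exc c θ D G v}.ncard : ℝ) ≤ ((2 * v₁ + 1 : ℕ) : ℝ) +
        ((((Finset.range (J + 1)).filter fun i => v₁ ≤ 2 ^ i).biUnion
        fun i => (hAfin i).toFinset).card : ℝ) := by exact_mod_cast h2
    _ ≤ (2 * v₁ + 1 : ℝ) + ((J : ℝ) + 1) * (M * (2 * N : ℝ) ^ (E + ε / 2)) := by
        push_cast
        linarith
    _ = (2 * v₁ + 1 : ℝ) + M * 2 ^ (E + ε / 2) * ((J : ℝ) + 1) * (N : ℝ) ^ (E + ε / 2) := by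
        rw [Real.mul_rpow (by norm_num) hN0.le]
        ring
    _ ≤ (2 * v₁ + 1 : ℝ) * (N : ℝ) ^ (E + ε / 2) +
        M * 2 ^ (E + ε / 2) * (Real.log N / Real.log 2 + 1) * (N : ℝ) ^ (E + ε / 2) := by
        apply add_le_add
        · exact le_mul_of_one_le_right (by positivity) (Real.one_le_rpow hN1 (by positivity))
        · apply mul_le_mul_of_nonneg_right _ (by positivity)
          apply mul_le_mul_of_nonneg_left _ (by positivity)
          linarith
    _ = ((2 * v₁ + 1 : ℝ) + M * 2 ^ (E + ε / 2) * (Real.log N / Real.log 2 + 1)) * (N : ℝ) ^ (E + ε / 2) := by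
        ring
    _ ≤ (N : ℝ) ^ (ε / 2) * (N : ℝ) ^ (E + ε / 2) := mul_le_mul_of_nonneg_right g2 (by positivity)
    _ = (N : ℝ) ^ (E + ε) := by
        rw [← Real.rpow_add hN0]
        congr 1
        ring

end Pool.Agent.Helper65.SGP
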